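import Pool.Agent.Run7.h57.MUB.CP.Ev

/-!
Blocks of quantifiers and the recursion for the truth of prenex formulas.
-/

set_option autoImplicit false
set_option linter.unusedSectionVars false
set_option linter.unusedVariables false

open FirstOrder FirstOrder.Language

namespace Pool.Agent.Run7.h57.MUB.CP

/-- the code of `∃ v, φ` (`b = true`) or of `∀ v, φ` (`b = false`) for the code of `φ` -/
def qi (b : Bool) (z : ℕ) : ℕ :=
  if b = true then
    Nat.pair 8 (Nat.pair (Nat.pair 9 (Nat.pair 8 (Nat.pair z (Nat.pair 5 0)))) (Nat.pair 5 0))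
  else Nat.pair 9 z

/-- the code of a block of `m` quantifiers -/
def Qi (b : Bool) (m z : ℕ) : ℕ := (qi b)^[m] z

theorem gf_ex {k : ℕ} (φ : LS.BoundedFormula Empty (k + 1)) : gf φ.ex = qi true (gf φ) := rfl

theorem gf_all {k : ℕ} (φ : LS.BoundedFormula Empty (k + 1)) : gf φ.all = qi false (gf φ) := rfl

theorem lt_qi (b : Bool) (z : ℕ) : z < qi b z := by
  cases b
  · exact lt_pair_right (by norm_num) z
  · have h1 : z ≤ Nat.pair z (Nat.pair 5 0) := Nat.left_le_pair _ _
    have h2 : Nat.pair z (Nat.pair 5 0) ≤ Nat.pair 8 (Nat.pair z (Nat.pair 5 0)) :=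
      Nat.right_le_pair _ _
    have h3 : Nat.pair 8 (Nat.pair z (Nat.pair 5 0)) <
        Nat.pair 9 (Nat.pair 8 (Nat.pair z (Nat.pair 5 0))) := lt_pair_right (by norm_num) _
    have h4 : Nat.pair 9 (Nat.pair 8 (Nat.pair z (Nat.pair 5 0))) ≤
      Nat.pair (Nat.pair 9 (Nat.pair 8 (Nat.pair z (Nat.pair 5 0)))) (Nat.pair 5 0) :=
      Nat.left_le_pair _ _
    have h5 : Nat.pair (Nat.pair 9 (Nat.pair 8 (Nat.pair z (Nat.pair 5 0)))) (Nat.pair 5 0) ≤
      qi true z := Nat.right_le_pair _ _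
    omega

theorem le_Qi (b : Bool) (m z : ℕ) : z + m ≤ Qi b m z := by
  induction m with
  | zero => exact le_rfl
  | succ m ih =>
    unfold Qi at ih ⊢
    rw [Function.iterate_succ_apply']
    have := lt_qi b ((qi b)^[m] z)
    omega

theorem primrec_qi (b : Bool) : Primrec (qi b) := by
  cases b
  · exact Primrec₂.natPair.comp (Primrec.const 9) Primrec.id
  · exact Primrec₂.natPair.comp (Primrec.const 8) (Primrec₂.natPair.comp
      (Primrec₂.natPair.comp (Primrec.const 9) (Primrec₂.natPair.comp (Primrec.const 8)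
        (Primrec₂.natPair.comp Primrec.id (Primrec.const (Nat.pair 5 0)))))
      (Primrec.const (Nat.pair 5 0)))

theorem primrec_Qi (b : Bool) : Primrec₂ (Qi b) := by
  unfold Qi
  exact Primrec.nat_iterate (f := fun p : ℕ × ℕ => p.1) (g := fun p : ℕ × ℕ => p.2)
    (h := fun (p : ℕ × ℕ) z => qi b z) Primrec.fst Primrec.snd
    ((primrec_qi b).comp Primrec.snd)

/-- extending a valuation -/
theorem snoc_upd {M : Type} (s : ℕ → M) (k : ℕ) (a : M) :
    (Fin.snoc (fun i : Fin k => s i) a : Fin (k + 1) → M) =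
      fun i : Fin (k + 1) => Function.update s k a i := by
  funext i
  refine Fin.lastCases ?_ (fun i => ?_) i
  · simp
  · rw [Fin.snoc_castSucc]
    show s i = Function.update s k a (i : ℕ)
    rw [Function.update_of_ne (by have := i.2; omega)]

section
variable {M : Type} [LS.Structure M]

/-- the formula `φ` has the truth value `b` at the valuation `s` -/
def Tv (b : Bool) {k : ℕ} (φ : LS.BoundedFormula Empty k) (s : ℕ → M) : Prop :=
  φ.Realize default (fun i : Fin k => s i) ↔ b = true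

theorem tv_ex {k : ℕ} (φ : LS.BoundedFormula Empty (k + 1)) (s : ℕ → M) :
    Tv true φ.ex s ↔ ∃ a, Tv true φ (Function.update s k a) := by
  unfold Tv
  simp only [iff_true]
  rw [BoundedFormula.realize_ex]
  exact exists_congr fun a => by rw [snoc_upd]

theorem tv_all {k : ℕ} (φ : LS.BoundedFormula Empty (k + 1)) (s : ℕ → M) :
    Tv false φ.all s ↔ ∃ a, Tv false φ (Function.update s k a) := by
  unfold Tv
  simp only [Bool.false_eq_true, iff_false]
  rw [BoundedFormula.realize_all, not_forall]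
  exact exists_congr fun a => by rw [snoc_upd]

theorem tv_congr (b : Bool) {k : ℕ} (φ : LS.BoundedFormula Empty k) {s s' : ℕ → M}
    (h : ∀ i < k, s i = s' i) : Tv b φ s ↔ Tv b φ s' := by
  unfold Tv
  rw [show (fun i : Fin k => s i) = fun i : Fin k => s' i from funext fun i => h i i.2]

/-- one quantifier in front of a block -/
theorem blk_step {k k' : ℕ} (hk : k < k') (P : (ℕ → M) → Prop) (s : ℕ → M) :
    (∃ a, ∃ s' : ℕ → M, (∀ i < k + 1, s' i = Function.update s k a i) ∧ P s') ↔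
      ∃ s' : ℕ → M, (∀ i < k, s' i = s i) ∧ P s' := by
  constructor
  · rintro ⟨a, s', h1, h2⟩
    refine ⟨s', fun i hi => ?_, h2⟩
    rw [h1 i (by omega), Function.update_of_ne (by omega)]
  · rintro ⟨s', h1, h2⟩
    refine ⟨s' k, s', fun i hi => ?_, h2⟩
    by_cases h : i = k
    · subst h
      rw [Function.update_self]
    · rw [Function.update_of_ne h]
      exact h1 i (by omega)

end

theorem lev_inv {b : Bool} {n k : ℕ} {φ : LS.BoundedFormula Empty k} (h : Lev b n φ) :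
    ∀ n', n = n' + 1 → ∃ (m k' : ℕ) (ψ : LS.BoundedFormula Empty k'), k' = k + m ∧
      Lev (!b) n' ψ ∧ gf φ = Qi b m (gf ψ) ∧ ∀ (M : Type) [LS.Structure M] (s : ℕ → M),
        Tv b φ s ↔ ∃ s' : ℕ → M, (∀ i < k, s' i = s i) ∧ Tv b ψ s' := by
  induction h with
  | qf h => intro n' hn; omega
  | @up b n k φ h ih =>
    intro n' hn
    have e : n = n' := by omega
    subst e
    refine ⟨0, k, φ, rfl, h, rfl, fun M _ s => ?_⟩
    constructor
    · intro h1
      exact ⟨s, fun i _ => rfl, h1⟩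
    · rintro ⟨s', h1, h2⟩
      exact (tv_congr b φ h1).1 h2
  | @ex n k φ h ih =>
    intro n' hn
    obtain ⟨m, k', ψ, hk, h1, h2, h3⟩ := ih n' hn
    refine ⟨m + 1, k', ψ, by omega, h1, ?_, fun M _ s => ?_⟩
    · rw [gf_ex, h2]
      unfold Qi
      rw [Function.iterate_succ_apply']
    · rw [tv_ex]
      refine (exists_congr fun a => h3 M (Function.update s k a)).trans ?_
      exact blk_step (k' := k + 1) (by omega) (fun s' => Tv true ψ s') s
  | @all n k φ h ih =>
    intro n' hn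
    obtain ⟨m, k', ψ, hk, h1, h2, h3⟩ := ih n' hn
    refine ⟨m + 1, k', ψ, by omega, h1, ?_, fun M _ s => ?_⟩
    · rw [gf_all, h2]
      unfold Qi
      rw [Function.iterate_succ_apply']
    · rw [tv_all]
      refine (exists_congr fun a => h3 M (Function.update s k a)).trans ?_
      exact blk_step (k' := k + 1) (by omega) (fun s' => Tv false ψ s') s

theorem lev_blk (b : Bool) (n m : ℕ) : ∀ (k k' : ℕ) (ψ : LS.BoundedFormula Empty k'),
    k' = k + m → Lev (!b) n ψ → ∃ φ : LS.BoundedFormula Empty k, Lev b (n + 1) φ ∧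
      gf φ = Qi b m (gf ψ) ∧ ∀ (M : Type) [LS.Structure M] (s : ℕ → M),
        Tv b φ s ↔ ∃ s' : ℕ → M, (∀ i < k, s' i = s i) ∧ Tv b ψ s' := by
  induction m with
  | zero =>
    intro k k' ψ hk h
    have e : k' = k := hk
    subst e
    refine ⟨ψ, Lev.up h, rfl, fun M _ s => ?_⟩
    constructor
    · intro h1
      exact ⟨s, fun i _ => rfl, h1⟩
    · rintro ⟨s', h1, h2⟩
      exact (tv_congr b ψ h1).1 h2
  | succ m ih =>
    intro k k' ψ hk h
    obtain ⟨φ, h1, h2, h3⟩ := ih (k + 1) k' ψ (by omega) h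
    cases b
    · refine ⟨φ.all, Lev.all h1, ?_, fun M _ s => ?_⟩
      · rw [gf_all, h2]
        unfold Qi
        rw [Function.iterate_succ_apply']
      · rw [tv_all]
        refine (exists_congr fun a => h3 M (Function.update s k a)).trans ?_
        exact blk_step (k' := k + 1) (by omega) (fun s' => Tv false ψ s') s
    · refine ⟨φ.ex, Lev.ex h1, ?_, fun M _ s => ?_⟩
      · rw [gf_ex, h2]
        unfold Qi
        rw [Function.iterate_succ_apply']
      · rw [tv_ex]
        refine (exists_congr fun a => h3 M (Function.update s k a)).trans ?_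
        exact blk_step (k' := k + 1) (by omega) (fun s' => Tv true ψ s') s

/-- `z` is the code of a formula of the class in the context `k` -/
def LevC (b : Bool) (n k z : ℕ) : Prop := ∃ φ : LS.BoundedFormula Empty k, Lev b n φ ∧ gf φ = z

/-- `z` is the code of a formula of the class in the context `k`, with the truth value `b` -/
def V {M : Type} [LS.Structure M] (b : Bool) (n k : ℕ) (s : ℕ → M) (z : ℕ) : Prop :=
  ∃ φ : LS.BoundedFormula Empty k, Lev b n φ ∧ gf φ = z ∧ Tv b φ s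

theorem lev_zero_iff {b : Bool} {k : ℕ} {φ : LS.BoundedFormula Empty k} :
    Lev b 0 φ ↔ φ.IsQF := by
  constructor
  · intro h
    cases h with
    | qf h => exact h
  · exact Lev.qf

theorem levC_zero (b : Bool) (k z : ℕ) : LevC b 0 k z ↔ wf k z = 2 := by
  constructor
  · rintro ⟨φ, h1, rfl⟩
    exact wf_gf (lev_zero_iff.1 h1)
  · intro h
    obtain ⟨φ, h1, h2⟩ := (wf_sound k z).2 h
    exact ⟨φ, Lev.qf h1, h2⟩

theorem levC_succ (b : Bool) (n k z : ℕ) : LevC b (n + 1) k z ↔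
    ∃ m < z + 1, ∃ z' < z + 1, z = Qi b m z' ∧ LevC (!b) n (k + m) z' := by
  constructor
  · rintro ⟨φ, h1, rfl⟩
    obtain ⟨m, k', ψ, hk, h2, h3, -⟩ := lev_inv h1 n rfl
    subst hk
    have h4 := le_Qi b m (gf ψ)
    refine ⟨m, by omega, gf ψ, by omega, h3, ψ, h2, rfl⟩
  · rintro ⟨m, -, z', -, rfl, ψ, h2, rfl⟩
    obtain ⟨φ, h3, h4, -⟩ := lev_blk b n m k (k + m) ψ rfl h2
    exact ⟨φ, h3, h4⟩

theorem V_zero {M : Type} [CommSemiring M] [LinearOrder M] [IsStrictOrderedRing M] [LS.Structure M]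
    (h : CS M) (b : Bool) (k : ℕ) (s : ℕ → M) (z : ℕ) :
    V b 0 k s z ↔ wf k z = 2 ∧ (ev s z ≠ 0 ↔ b = true) := by
  constructor
  · rintro ⟨φ, h1, rfl, h3⟩
    refine ⟨wf_gf (lev_zero_iff.1 h1), ?_⟩
    rw [← gf_ev h s (lev_zero_iff.1 h1)]
    exact h3
  · rintro ⟨h1, h2⟩
    obtain ⟨φ, h3, rfl⟩ := (wf_sound k z).2 h1
    refine ⟨φ, Lev.qf h3, rfl, ?_⟩
    unfold Tv
    rw [gf_ev h s h3]
    exact h2

theorem V_succ {M : Type} [LS.Structure M] (b : Bool) (n k : ℕ) (s : ℕ → M) (z : ℕ) :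
    V b (n + 1) k s z ↔ ∃ m < z + 1, ∃ z' < z + 1, z = Qi b m z' ∧ LevC (!b) n (k + m) z' ∧
      ∃ s' : ℕ → M, (∀ i < k, s' i = s i) ∧ ¬ V (!b) n (k + m) s' z' := by
  have key : ∀ {k' : ℕ} (ψ : LS.BoundedFormula Empty k'), Lev (!b) n ψ → ∀ s' : ℕ → M,
      (Tv b ψ s' ↔ ¬ V (!b) n k' s' (gf ψ)) := by
    intro k' ψ hψ s'
    have h1 : V (!b) n k' s' (gf ψ) ↔ Tv (!b) ψ s' := by
      constructor
      · rintro ⟨ψ', h2, h3, h4⟩
        rwa [gf_inj _ _ h3] at h4
      · intro h2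
        exact ⟨ψ, hψ, rfl, h2⟩
    rw [h1]
    unfold Tv
    cases b <;> simp
  constructor
  · rintro ⟨φ, h1, rfl, h2⟩
    obtain ⟨m, k', ψ, hk, h3, h4, h5⟩ := lev_inv h1 n rfl
    subst hk
    have h6 := le_Qi b m (gf ψ)
    refine ⟨m, by omega, gf ψ, by omega, h4, ⟨ψ, h3, rfl⟩, ?_⟩
    obtain ⟨s', h7, h8⟩ := (h5 M s).1 h2
    exact ⟨s', h7, (key ψ h3 s').1 h8⟩
  · rintro ⟨m, -, z', -, rfl, ⟨ψ, h2, rfl⟩, s', h7, h8⟩
    obtain ⟨φ, h3, h4, h5⟩ := lev_blk b n m k (k + m) ψ rfl h2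
    exact ⟨φ, h3, h4, (h5 M s).2 ⟨s', h7, (key ψ h2 s').2 h8⟩⟩

/-- the truth value only depends on the values of the variables below `k` -/
theorem V_congr {M : Type} [LS.Structure M] (b : Bool) (n k : ℕ) {s s' : ℕ → M} (z : ℕ)
    (h : ∀ i < k, s i = s' i) : V b n k s z ↔ V b n k s' z := by
  unfold V
  refine exists_congr fun φ => ?_
  rw [tv_congr b φ h]

end Pool.Agent.Run7.h57.MUB.CP
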