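import Pool.Agent.Run7.h57.MUB.CP.Blk
import Pool.Agent.H623R3.JC.P_HAT
import Pool.Agent.H623R3.JC.MixL

/-!
Definability of the truth of prenex formulas of a fixed level.
-/

set_option autoImplicit false
set_option linter.unusedSectionVars false
set_option linter.unusedVariables false

open FirstOrder FirstOrder.Language Pool.Agent.Helper227.EN

namespace Pool.Agent.Run7.h57.MUB.CP

open Pool.Agent.H623R3.JC

section
variable {M : Type} [CommSemiring M] [LinearOrder M] [IsStrictOrderedRing M] [LA.Structure M]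

/-! ### the algebraic operations -/

theorem dd_add (hc : Compat M) (i j k : ℕ) : DD (M := M) fun x _ => x i = x j + x k := by
  obtain ⟨tv, tn, ta, tm, te, tl, -⟩ := trm_ops hc
  refine ⟨fun z => z (2 * i) = z (2 * j) + z (2 * k), te _ _ (tv _) (ta _ _ (tv _) (tv _)),
    fun x ν => ?_⟩
  simp only [mix_even]

theorem dd_mul (hc : Compat M) (i j k : ℕ) : DD (M := M) fun x _ => x i = x j * x k := by
  obtain ⟨tv, tn, ta, tm, te, tl, -⟩ := trm_ops hc
  refine ⟨fun z => z (2 * i) = z (2 * j) * z (2 * k), te _ _ (tv _) (tm _ _ (tv _) (tv _)),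
    fun x ν => ?_⟩
  simp only [mix_even]

theorem dd_lt (hc : Compat M) (i j : ℕ) : DD (M := M) fun x _ => x i < x j := by
  obtain ⟨tv, tn, ta, tm, te, tl, -⟩ := trm_ops hc
  refine ⟨fun z => z (2 * i) < z (2 * j), tl _ _ (tv _) (tv _), fun x ν => ?_⟩
  simp only [mix_even]

theorem dd_zero (hc : Compat M) (i : ℕ) : DD (M := M) fun x _ => x i = 0 := by
  obtain ⟨tv, tn, ta, tm, te, tl, -⟩ := trm_ops hc
  refine ⟨fun z => z (2 * i) = ((0 : ℕ) : M), te _ _ (tv _) (tn 0), fun x ν => ?_⟩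
  simp only [mix_even, Nat.cast_zero]

theorem dd_one (hc : Compat M) (i : ℕ) : DD (M := M) fun x _ => x i = 1 := by
  obtain ⟨tv, tn, ta, tm, te, tl, -⟩ := trm_ops hc
  refine ⟨fun z => z (2 * i) = ((1 : ℕ) : M), te _ _ (tv _) (tn 1), fun x ν => ?_⟩
  simp only [mix_even, Nat.cast_one]

theorem dd_succ (hc : Compat M) (i j : ℕ) : DD (M := M) fun x _ => x i = x j + 1 := by
  obtain ⟨tv, tn, ta, tm, te, tl, -⟩ := trm_ops hc
  refine ⟨fun z => z (2 * i) = z (2 * j) + ((1 : ℕ) : M), te _ _ (tv _) (ta _ _ (tv _) (tn 1)),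
    fun x ν => ?_⟩
  simp only [mix_even, Nat.cast_one]

/-! ### the step of the evaluation -/

/-- the step of the evaluation, as a relation -/
def EVs (t : ℕ) (y e u v w : M) : Prop :=
  (t = 0 → e = y) ∧ (t = 2 → e = u + 1) ∧ (t = 3 → e = v + w) ∧ (t = 4 → e = v * w) ∧
  (t = 6 → (v = w → e = 1) ∧ (¬ v = w → e = 0)) ∧
  (t = 7 → (v < w → e = 1) ∧ (¬ v < w → e = 0)) ∧
  (t = 8 → ((¬ v = 0 → ¬ w = 0) → e = 1) ∧ (¬ (¬ v = 0 → ¬ w = 0) → e = 0)) ∧
  ((t = 1 ∨ t = 5 ∨ 8 < t) → e = 0)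

theorem EVs_iff (x : ℕ → M) (t r : ℕ) (e u v w : M) :
    EVs t (x r) e u v w ↔ e = evs x t r u v w := by
  by_cases c0 : t = 0
  · subst c0
    simp [EVs, evs]
  by_cases c2 : t = 2
  · subst c2
    simp [EVs, evs]
  by_cases c3 : t = 3
  · subst c3
    simp [EVs, evs]
  by_cases c4 : t = 4
  · subst c4
    simp [EVs, evs]
  by_cases c6 : t = 6
  · subst c6
    by_cases h : v = w
    · simp [EVs, evs, h]
    · simp [EVs, evs, h]
  by_cases c7 : t = 7
  · subst c7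
    by_cases h : v < w
    · simp [EVs, evs, h]
    · simp [EVs, evs, h]
  by_cases c8 : t = 8
  · subst c8
    by_cases h : (¬ v = 0 → ¬ w = 0)
    · have e1 : evs x 8 r u v w = 1 := by
        simp only [evs, ne_eq]
        rw [if_pos h]
        norm_num
      rw [e1]
      constructor
      · intro hh
        exact (hh.2.2.2.2.2.2.1 rfl).1 h
      · intro he
        refine ⟨fun hh => absurd hh (by norm_num), fun hh => absurd hh (by norm_num),
          fun hh => absurd hh (by norm_num), fun hh => absurd hh (by norm_num),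
          fun hh => absurd hh (by norm_num), fun hh => absurd hh (by norm_num),
          fun _ => ⟨fun _ => he, fun hh => absurd h hh⟩, fun hh => absurd hh (by norm_num)⟩
    · have e1 : evs x 8 r u v w = 0 := by
        simp only [evs, ne_eq]
        rw [if_neg h]
        norm_num
      rw [e1]
      constructor
      · intro hh
        exact (hh.2.2.2.2.2.2.1 rfl).2 h
      · intro he
        refine ⟨fun hh => absurd hh (by norm_num), fun hh => absurd hh (by norm_num),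
          fun hh => absurd hh (by norm_num), fun hh => absurd hh (by norm_num),
          fun hh => absurd hh (by norm_num), fun hh => absurd hh (by norm_num),
          fun _ => ⟨fun hh => absurd hh h, fun _ => he⟩, fun hh => absurd hh (by norm_num)⟩
  have c : t = 1 ∨ t = 5 ∨ 8 < t := by omega
  simp [EVs, evs, c0, c2, c3, c4, c6, c7, c8, c]

theorem dd_nat_eq (h2 : Calc2 M) (f : (ℕ → ℕ) → ℕ) (hf : RF M f) (n : ℕ) :
    DD (M := M) fun _ ν => f ν = n :=
  h2.rel (fun t => t = n) ⟨fun t => decide (t = n),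
    Primrec.eq.decide.comp Primrec.id (Primrec.const n), fun t => by simp⟩ f hf

theorem dd_EVs (hc : Compat M) (h1 : Calc1 M) (h2 : Calc2 M) (f : (ℕ → ℕ) → ℕ) (hf : RF M f) :
    DD (M := M) fun x ν => EVs (f ν) (x 5) (x 9) (x 6) (x 7) (x 8) := by
  unfold EVs
  have ht := dd_nat_eq h2 f hf
  have hz := dd_zero (M := M) hc
  have ho := dd_one (M := M) hc
  have hvw : DD (M := M) fun x _ => x 7 = x 8 := h1.eq 7 8
  have hlt : DD (M := M) fun x _ => x 7 < x 8 := dd_lt hc 7 8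
  have him : DD (M := M) fun x _ => (¬ x 7 = 0 → ¬ x 8 = 0) :=
    h1.imp (h1.not (hz 7)) (h1.not (hz 8))
  refine h1.and (h1.imp (ht 0) (h1.eq 9 5)) ?_
  refine h1.and (h1.imp (ht 2) (dd_succ hc 9 6)) ?_
  refine h1.and (h1.imp (ht 3) (dd_add hc 9 7 8)) ?_
  refine h1.and (h1.imp (ht 4) (dd_mul hc 9 7 8)) ?_
  refine h1.and (h1.imp (ht 6) (h1.and (h1.imp hvw (ho 9)) (h1.imp (h1.not hvw) (hz 9)))) ?_
  refine h1.and (h1.imp (ht 7) (h1.and (h1.imp hlt (ho 9)) (h1.imp (h1.not hlt) (hz 9)))) ?_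
  refine h1.and (h1.imp (ht 8) (h1.and (h1.imp him (ho 9)) (h1.imp (h1.not him) (hz 9)))) ?_
  refine h1.imp (h1.or (ht 1) (h1.or (ht 5) ?_)) (hz 9)
  exact h2.rel (fun t => 8 < t) ⟨fun t => decide (8 < t),
    Primrec.nat_lt.decide.comp (Primrec.const 8) Primrec.id, fun t => by simp⟩ f hf

/-! ### the local condition -/

/-- the guarded value -/
def EVg (a' c' : M) (p q : ℕ) (u : M) : Prop := (q < p → u = bt a' c' q) ∧ (¬ q < p → u = 0)

/-- the local condition at `p` -/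
def EVc (a c a' c' : M) (p : ℕ) : Prop :=
  ∃ y, y = bt a c p.unpair.2 ∧ ∃ u, EVg a' c' p p.unpair.2 u ∧
    ∃ v, EVg a' c' p p.unpair.2.unpair.1 v ∧ ∃ w, EVg a' c' p p.unpair.2.unpair.2 w ∧
      ∃ e, e = bt a' c' p ∧ EVs p.unpair.1 y e u v w

theorem dd_EVg (hc : Compat M) (h1 : Calc1 M) (h2 : Calc2 M) (k : ℕ) (f g : (ℕ → ℕ) → ℕ)
    (hf : RF M f) (hg : RF M g) :
    DD (M := M) fun x ν => EVg (x 3) (x 4) (f ν) (g ν) (x k) := by
  unfold EVg
  have hlt : DD (M := M) fun _ ν => g ν < f ν := by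
    have h3 : RF M fun ν => Nat.pair (g ν) (f ν) := h2.prim2 Nat.pair Primrec₂.natPair g f hg hf
    have h4 := h2.rel (fun t => t.unpair.1 < t.unpair.2)
      ⟨fun t => decide (t.unpair.1 < t.unpair.2),
        Primrec.nat_lt.decide.comp (Primrec.fst.comp Primrec.unpair)
          (Primrec.snd.comp Primrec.unpair), fun t => by simp⟩ _ h3
    simpa only [Nat.unpair_pair] using h4
  exact h1.and (h1.imp hlt (HAT_bt h1 h2 3 4 k g hg)) (h1.imp (h1.not hlt) (dd_zero hc k))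

theorem dd_EVc (hc : Compat M) (h1 : Calc1 M) (h2 : Calc2 M) :
    DD (M := M) fun x ν => EVc (x 0) (x 1) (x 3) (x 4) (ν 1) := by
  have rp : RF M fun ν => ν 1 := h2.var 1
  have pL : Primrec fun p : ℕ => p.unpair.1 := Primrec.fst.comp Primrec.unpair
  have pR : Primrec fun p : ℕ => p.unpair.2 := Primrec.snd.comp Primrec.unpair
  have rt : RF M fun ν => (ν 1).unpair.1 := h2.prim _ pL _ rp
  have rr : RF M fun ν => (ν 1).unpair.2 := h2.prim _ pR _ rp
  have ra : RF M fun ν => (ν 1).unpair.2.unpair.1 := h2.prim _ pL _ rr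
  have rb : RF M fun ν => (ν 1).unpair.2.unpair.2 := h2.prim _ pR _ rr
  unfold EVc
  refine h1.exM (fun x ν y => y = bt (x 0) (x 1) (ν 1).unpair.2 ∧
    ∃ u, EVg (x 3) (x 4) (ν 1) (ν 1).unpair.2 u ∧
    ∃ v, EVg (x 3) (x 4) (ν 1) (ν 1).unpair.2.unpair.1 v ∧
    ∃ w, EVg (x 3) (x 4) (ν 1) (ν 1).unpair.2.unpair.2 w ∧
      ∃ e, e = bt (x 3) (x 4) (ν 1) ∧ EVs (ν 1).unpair.1 y e u v w) 5 ?_ ?_
  · intro x ν y v
    simp [Function.update]
  refine h1.and (HAT_bt h1 h2 0 1 5 _ rr) ?_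
  refine h1.exM (fun x ν u => EVg (x 3) (x 4) (ν 1) (ν 1).unpair.2 u ∧
    ∃ v, EVg (x 3) (x 4) (ν 1) (ν 1).unpair.2.unpair.1 v ∧
    ∃ w, EVg (x 3) (x 4) (ν 1) (ν 1).unpair.2.unpair.2 w ∧
      ∃ e, e = bt (x 3) (x 4) (ν 1) ∧ EVs (ν 1).unpair.1 (x 5) e u v w) 6 ?_ ?_
  · intro x ν y v
    simp [Function.update]
  refine h1.and (dd_EVg hc h1 h2 6 _ _ rp rr) ?_
  refine h1.exM (fun x ν v => EVg (x 3) (x 4) (ν 1) (ν 1).unpair.2.unpair.1 v ∧
    ∃ w, EVg (x 3) (x 4) (ν 1) (ν 1).unpair.2.unpair.2 w ∧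
      ∃ e, e = bt (x 3) (x 4) (ν 1) ∧ EVs (ν 1).unpair.1 (x 5) e (x 6) v w) 7 ?_ ?_
  · intro x ν y v
    simp [Function.update]
  refine h1.and (dd_EVg hc h1 h2 7 _ _ rp ra) ?_
  refine h1.exM (fun x ν w => EVg (x 3) (x 4) (ν 1) (ν 1).unpair.2.unpair.2 w ∧
      ∃ e, e = bt (x 3) (x 4) (ν 1) ∧ EVs (ν 1).unpair.1 (x 5) e (x 6) (x 7) w) 8 ?_ ?_
  · intro x ν y v
    simp [Function.update]
  refine h1.and (dd_EVg hc h1 h2 8 _ _ rp rb) ?_
  refine h1.exM (fun x ν e => e = bt (x 3) (x 4) (ν 1) ∧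
    EVs (ν 1).unpair.1 (x 5) e (x 6) (x 7) (x 8)) 9 ?_ ?_
  · intro x ν y v
    simp [Function.update]
  exact h1.and (HAT_bt h1 h2 3 4 9 _ rp) (dd_EVs hc h1 h2 _ rt)

theorem EVc_iff (a c a' c' : M) (p : ℕ) : EVc a c a' c' p ↔
    bt a' c' p = evs (bs a c) p.unpair.1 p.unpair.2
      (if p.unpair.2 < p then bt a' c' p.unpair.2 else 0)
      (if p.unpair.2.unpair.1 < p then bt a' c' p.unpair.2.unpair.1 else 0)
      (if p.unpair.2.unpair.2 < p then bt a' c' p.unpair.2.unpair.2 else 0) := by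
  have hg : ∀ (q : ℕ) (u : M), EVg a' c' p q u ↔ u = if q < p then bt a' c' q else 0 := by
    intro q u
    unfold EVg
    split_ifs with h <;> simp [h]
  unfold EVc
  simp only [hg]
  constructor
  · rintro ⟨y, rfl, u, rfl, v, rfl, w, rfl, e, rfl, he⟩
    exact (EVs_iff (bs a c) _ _ _ _ _ _).1 he
  · intro h
    exact ⟨_, rfl, _, rfl, _, rfl, _, rfl, _, rfl, (EVs_iff (bs a c) _ _ _ _ _ _).2 h⟩

theorem ev_iff (h2 : Calc2 M) (a c z : M) (m : ℕ) :
    z = ev (bs a c) m ↔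
      ∃ a' c', (∀ p < m + 1, EVc a c a' c' p) ∧ z = bt a' c' m := by
  constructor
  · intro hz
    obtain ⟨a', c', hc⟩ := h2.code (m + 1) (fun i => ev (bs a c) i)
    refine ⟨a', c', fun p hp => ?_, ?_⟩
    · rw [EVc_iff, hc p hp, ev_eq]
      have hg : ∀ q, (if q < p then bt a' c' q else 0) = gd (bs a c) p q := by
        intro q
        unfold gd
        split_ifs with h
        · exact hc q (by omega)
        · rfl
      rw [hg, hg, hg]
    · rw [hc m (Nat.lt_succ_self m)]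
      exact hz
  · rintro ⟨a', c', hc, hz⟩
    have key : ∀ p, p < m + 1 → bt a' c' p = ev (bs a c) p := by
      intro p
      induction p using Nat.strong_induction_on with
      | _ p ih =>
        intro hp
        have h3 := (EVc_iff a c a' c' p).1 (hc p hp)
        have hg : ∀ q, (if q < p then bt a' c' q else 0) = gd (bs a c) p q := by
          intro q
          unfold gd
          split_ifs with h
          · exact ih q h (by omega)
          · rfl
        rw [hg, hg, hg] at h3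
        rw [h3, ← ev_eq]
    rw [hz, key m (Nat.lt_succ_self m)]

/-- the evaluation is definable -/
theorem dd_ev (hc : Compat M) (h1 : Calc1 M) (h2 : Calc2 M) :
    DD (M := M) fun x ν => x 2 = ev (bs (x 0) (x 1)) (ν 0) := by
  have hall0 : DD (M := M) fun x ν => ∀ p < ν 2, EVc (x 0) (x 1) (x 3) (x 4) p :=
    h1.allLt (fun x _ p => EVc (x 0) (x 1) (x 3) (x 4) p) 1 2 (by decide)
      (fun _ _ _ _ => Iff.rfl) (dd_EVc hc h1 h2)
  have hall : DD (M := M) fun x ν => ∀ p < ν 0 + 1, EVc (x 0) (x 1) (x 3) (x 4) p :=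
    h2.subst (fun x _ N => ∀ p < N, EVc (x 0) (x 1) (x 3) (x 4) p) 2
      (fun _ _ _ _ => Iff.rfl) hall0 (fun ν => ν 0 + 1)
      (h2.prim (fun n => n + 1) Primrec.succ _ (h2.var 0))
  have e1 : DD (M := M) fun x ν => ∃ a' c', (∀ p < ν 0 + 1, EVc (x 0) (x 1) a' c' p) ∧
      x 2 = bt a' c' (ν 0) := by
    refine h1.exM (fun x ν a' => ∃ c', (∀ p < ν 0 + 1, EVc (x 0) (x 1) a' c' p) ∧
      x 2 = bt a' c' (ν 0)) 3 ?_ ?_
    · intro x ν y v
      simp [Function.update]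
    refine h1.exM (fun x ν c' => (∀ p < ν 0 + 1, EVc (x 0) (x 1) (x 3) c' p) ∧
      x 2 = bt (x 3) c' (ν 0)) 4 ?_ ?_
    · intro x ν y v
      simp [Function.update]
    exact h1.and hall (HAT_bt h1 h2 3 4 2 _ (h2.var 0))
  have e2 : (fun (x : ℕ → M) (ν : ℕ → ℕ) => x 2 = ev (bs (x 0) (x 1)) (ν 0)) =
      fun x ν => ∃ a' c', (∀ p < ν 0 + 1, EVc (x 0) (x 1) a' c' p) ∧
        x 2 = bt a' c' (ν 0) := by
    funext x ν
    exact propext (ev_iff h2 _ _ _ _)
  rw [e2]
  exact e1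

/-- non-zero values -/
theorem dd_ev_ne (hc : Compat M) (h1 : Calc1 M) (h2 : Calc2 M) :
    DD (M := M) fun x ν => ev (bs (x 0) (x 1)) (ν 0) ≠ 0 := by
  have h3 : DD (M := M) fun x ν => ∃ y, y = ev (bs (x 0) (x 1)) (ν 0) ∧ ¬ y = 0 := by
    refine h1.exM (fun x ν y => y = ev (bs (x 0) (x 1)) (ν 0) ∧ ¬ y = 0) 2 ?_ ?_
    · intro x ν y v
      simp [Function.update]
    exact h1.and (dd_ev hc h1 h2) (h1.not (dd_zero hc 2))
  have e2 : (fun (x : ℕ → M) (ν : ℕ → ℕ) => ev (bs (x 0) (x 1)) (ν 0) ≠ 0) =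
      fun x ν => ∃ y, y = ev (bs (x 0) (x 1)) (ν 0) ∧ ¬ y = 0 := by
    funext x ν
    simp
  rw [e2]
  exact h3

/-! ### the levels -/

theorem dd_wf (h2 : Calc2 M) (f g : (ℕ → ℕ) → ℕ) (hf : RF M f) (hg : RF M g) :
    DD (M := M) fun _ ν => wf (f ν) (g ν) = 2 := by
  have h3 : RF M fun ν => wf (f ν) (g ν) := h2.prim2 wf primrec_wf f g hf hg
  exact dd_nat_eq h2 _ h3 2

theorem dd_Qi (h2 : Calc2 M) (b : Bool) (i j k : ℕ) :
    DD (M := M) fun _ ν => ν i = Qi b (ν j) (ν k) := by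
  have h3 : RF M fun ν => Qi b (ν j) (ν k) :=
    h2.prim2 (Qi b) (primrec_Qi b) _ _ (h2.var j) (h2.var k)
  have h4 : RF M fun ν => Nat.pair (ν i) (Qi b (ν j) (ν k)) :=
    h2.prim2 Nat.pair Primrec₂.natPair _ _ (h2.var i) h3
  have h5 := h2.rel (fun t => t.unpair.1 = t.unpair.2)
      ⟨fun t => decide (t.unpair.1 = t.unpair.2),
        Primrec.eq.decide.comp (Primrec.fst.comp Primrec.unpair)
          (Primrec.snd.comp Primrec.unpair), fun t => by simp⟩ _ h4
  simpa only [Nat.unpair_pair] using h5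

/-- two bounded quantifiers -/
theorem dd_ex2 (h1 : Calc1 M) (h2 : Calc2 M) (Q : (ℕ → M) → (ℕ → ℕ) → ℕ → ℕ → Prop)
    (hQ2 : ∀ x ν m z v, Q x (Function.update ν 2 v) m z ↔ Q x ν m z)
    (hQ3 : ∀ x ν m z v, Q x (Function.update ν 3 v) m z ↔ Q x ν m z)
    (hQ4 : ∀ x ν m z v, Q x (Function.update ν 4 v) m z ↔ Q x ν m z)
    (h : DD fun x ν => Q x ν (ν 2) (ν 3)) :
    DD (M := M) fun x ν => ∃ m < ν 0 + 1, ∃ z' < ν 0 + 1, Q x ν m z' := by
  have h3 : DD (M := M) fun x ν => ∃ z' < ν 4, Q x ν (ν 2) z' := by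
    refine h1.exLt (fun x ν z' => Q x ν (ν 2) z') 3 4 (by decide) ?_ h
    intro x ν i v
    rw [Function.update_of_ne (by decide)]
    exact hQ3 x ν _ _ v
  have h4 : DD (M := M) fun x ν => ∃ m < ν 4, ∃ z' < ν 4, Q x ν m z' := by
    refine h1.exLt (fun x ν m => ∃ z' < ν 4, Q x ν m z') 2 4 (by decide) ?_ h3
    intro x ν i v
    rw [Function.update_of_ne (by decide)]
    exact exists_congr fun z => and_congr_right fun _ => hQ2 x ν _ _ v
  refine h2.subst (fun x ν N => ∃ m < N, ∃ z' < N, Q x ν m z') 4 ?_ h4 (fun ν => ν 0 + 1)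
    (h2.prim (fun n => n + 1) Primrec.succ _ (h2.var 0))
  intro x ν i v
  exact exists_congr fun m => and_congr_right fun _ => exists_congr fun z =>
    and_congr_right fun _ => hQ4 x ν _ _ v

theorem dd_LevC (h1 : Calc1 M) (h2 : Calc2 M) (n : ℕ) : ∀ b : Bool,
    DD (M := M) fun _ ν => LevC b n (ν 1) (ν 0) := by
  induction n with
  | zero =>
    intro b
    have h3 := dd_wf (M := M) h2 _ _ (h2.var 1) (h2.var 0)
    simpa only [levC_zero] using h3
  | succ n ih =>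
    intro b
    have h3 : DD (M := M) fun _ ν => LevC (!b) n (ν 1 + ν 2) (ν 3) := by
      have h4 := h1.ren (fun i => i) (fun i => if i = 1 then 5 else 3) (ih (!b))
      exact h2.subst (fun _ ν N => LevC (!b) n N (ν 3)) 5 (fun x ν i v => by
        rw [Function.update_of_ne (by decide)]) h4 (fun ν => ν 1 + ν 2)
        (h2.prim2 (fun a b => a + b) Primrec.nat_add _ _ (h2.var 1) (h2.var 2))
    have h4 := dd_ex2 h1 h2 (fun _ ν m z' => ν 0 = Qi b m z' ∧ LevC (!b) n (ν 1 + m) z')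
      (fun x ν m z v => by simp [Function.update]) (fun x ν m z v => by simp [Function.update])
      (fun x ν m z v => by simp [Function.update]) (h1.and (dd_Qi h2 b 0 2 3) h3)
    simpa only [levC_succ] using h4

theorem dd_V [LS.Structure M] (hS : CS M) (hc : Compat M) (h1 : Calc1 M) (h2 : Calc2 M) (n : ℕ) :
    ∀ b : Bool, DD (M := M) fun x ν => V b n (ν 1) (bs (x 0) (x 1)) (ν 0) := by
  induction n with
  | zero =>
    intro b
    have h3 := dd_wf (M := M) h2 _ _ (h2.var 1) (h2.var 0)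
    have h4 := h1.and h3 (h1.iff (dd_ev_ne (M := M) hc h1 h2) (h1.const (b = true)))
    simpa only [V_zero hS] using h4
  | succ n ih =>
    intro b
    have hL : DD (M := M) fun _ ν => LevC (!b) n (ν 1 + ν 2) (ν 3) := by
      have h4 := h1.ren (fun i => i) (fun i => if i = 1 then 5 else 3) (dd_LevC h1 h2 n (!b))
      exact h2.subst (fun _ ν N => LevC (!b) n N (ν 3)) 5 (fun x ν i v => by
        rw [Function.update_of_ne (by decide)]) h4 (fun ν => ν 1 + ν 2)
        (h2.prim2 (fun a b => a + b) Primrec.nat_add _ _ (h2.var 1) (h2.var 2))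
    have hV : DD (M := M) fun x ν => V (!b) n (ν 1 + ν 2) (bs (x 2) (x 3)) (ν 3) := by
      have h4 := h1.ren (fun i => if i = 0 then 2 else 3) (fun i => if i = 1 then 5 else 3)
        (ih (!b))
      exact h2.subst (fun x ν N => V (!b) n N (bs (x 2) (x 3)) (ν 3)) 5 (fun x ν i v => by
        rw [Function.update_of_ne (by decide)]) h4 (fun ν => ν 1 + ν 2)
        (h2.prim2 (fun a b => a + b) Primrec.nat_add _ _ (h2.var 1) (h2.var 2))
    have hA : DD (M := M) fun x ν => ∀ i < ν 1, bs (x 2) (x 3) i = bs (x 0) (x 1) i := by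
      refine h1.allLt (fun x ν i => bs (x 2) (x 3) i = bs (x 0) (x 1) i) 5 1 (by decide)
        (fun _ _ _ _ => Iff.rfl) ?_
      have h5 : DD (M := M) fun x ν => ∃ y, y = bt (x 2) (x 3) (ν 5) ∧
          y = bt (x 0) (x 1) (ν 5) := by
        refine h1.exM (fun x ν y => y = bt (x 2) (x 3) (ν 5) ∧ y = bt (x 0) (x 1) (ν 5)) 4 ?_ ?_
        · intro x ν y v
          simp [Function.update]
        exact h1.and (HAT_bt h1 h2 2 3 4 _ (h2.var 5)) (HAT_bt h1 h2 0 1 4 _ (h2.var 5))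
      have e : (fun (x : ℕ → M) (ν : ℕ → ℕ) => bs (x 2) (x 3) (ν 5) = bs (x 0) (x 1) (ν 5)) =
          fun x ν => ∃ y, y = bt (x 2) (x 3) (ν 5) ∧ y = bt (x 0) (x 1) (ν 5) := by
        funext x ν
        refine propext ⟨fun h => ⟨_, rfl, h⟩, ?_⟩
        rintro ⟨y, h6, h7⟩
        exact h6.symm.trans h7
      rw [e]
      exact h5
    have hE : DD (M := M) fun x ν => ∃ a' c', (∀ i < ν 1, bs a' c' i = bs (x 0) (x 1) i) ∧
        ¬ V (!b) n (ν 1 + ν 2) (bs a' c') (ν 3) := by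
      refine h1.exM (fun x ν a' => ∃ c', (∀ i < ν 1, bs a' c' i = bs (x 0) (x 1) i) ∧
        ¬ V (!b) n (ν 1 + ν 2) (bs a' c') (ν 3)) 2 ?_ ?_
      · intro x ν y v
        simp [Function.update]
      refine h1.exM (fun x ν c' => (∀ i < ν 1, bs (x 2) c' i = bs (x 0) (x 1) i) ∧
        ¬ V (!b) n (ν 1 + ν 2) (bs (x 2) c') (ν 3)) 3 ?_ ?_
      · intro x ν y v
        simp [Function.update]
      exact h1.and hA (h1.not hV)
    have h4 := dd_ex2 h1 h2 (fun x ν m z' => ν 0 = Qi b m z' ∧ LevC (!b) n (ν 1 + m) z' ∧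
        ∃ a' c', (∀ i < ν 1, bs a' c' i = bs (x 0) (x 1) i) ∧
        ¬ V (!b) n (ν 1 + m) (bs a' c') z')
      (fun x ν m z v => by simp [Function.update]) (fun x ν m z v => by simp [Function.update])
      (fun x ν m z v => by simp [Function.update]) (h1.and (dd_Qi h2 b 0 2 3) (h1.and hL hE))
    have key : ∀ (k m z' : ℕ) (s : ℕ → M), (∃ s' : ℕ → M, (∀ i < k, s' i = s i) ∧
        ¬ V (!b) n (k + m) s' z') ↔ ∃ a' c', (∀ i < k, bs a' c' i = s i) ∧
        ¬ V (!b) n (k + m) (bs a' c') z' := by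
      intro k m z' s
      constructor
      · rintro ⟨s', h5, h6⟩
        obtain ⟨a', c', h7⟩ := h2.code (k + m) s'
        refine ⟨a', c', fun i hi => ?_, fun h8 => h6 ?_⟩
        · exact (h7 i (by omega)).trans (h5 i hi)
        · exact (V_congr (!b) n (k + m) z' (fun i hi => h7 i hi)).1 h8
      · rintro ⟨a', c', h5, h6⟩
        exact ⟨_, h5, h6⟩
    simpa only [V_succ, key] using h4

end

end Pool.Agent.Run7.h57.MUB.CP
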