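import Pool.Agent.Helper578.JD.Defs

/-!
The language of arithmetic with the symbols `0, S, +, ·, <`, Peano arithmetic, Goedel numbers,
prenex formulas, the atomic diagram, minimal upper bounds.
-/

set_option autoImplicit false

open FirstOrder FirstOrder.Language

namespace Pool.Agent.Run7.h57.MUB.CP

/-- function symbols of the language of arithmetic -/
inductive SF : ℕ → Type
  | zero : SF 0
  | succ : SF 1
  | add : SF 2
  | mul : SF 2

/-- relation symbols of the language of arithmetic -/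
inductive SR : ℕ → Type
  | lt : SR 2

/-- The first-order language of arithmetic `{0, S, +, ·, <}` (with equality). -/
def LS : FirstOrder.Language.{0, 0} := ⟨SF, SR⟩

/-- The term `0`. -/
def tz {α : Type} : LS.Term α := Constants.term (L := LS) SF.zero
/-- The term `S t`. -/
def ts {α : Type} (t : LS.Term α) : LS.Term α := Functions.apply₁ (L := LS) SF.succ t
/-- The term `s + t`. -/
def ta {α : Type} (s t : LS.Term α) : LS.Term α := Functions.apply₂ (L := LS) SF.add s t
/-- The term `s · t`. -/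
def tm {α : Type} (s t : LS.Term α) : LS.Term α := Functions.apply₂ (L := LS) SF.mul s t
/-- The atomic formula `s < t`. -/
def fl {α : Type} {n : ℕ} (s t : LS.Term (α ⊕ Fin n)) : LS.BoundedFormula α n :=
  Relations.boundedFormula₂ (L := LS) SR.lt s t

/-- the bound variable number `i` (counted from the outermost quantifier) -/
abbrev vr {α : Type} {n : ℕ} (i : Fin n) : LS.Term (α ⊕ Fin n) := Term.var (Sum.inr i)

/-- associativity of addition -/
def xAddAssoc : LS.Sentence :=
  ∀' ∀' ∀' (ta (ta (vr 0) (vr 1)) (vr 2) =' ta (vr 0) (ta (vr 1) (vr 2)))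
/-- commutativity of addition -/
def xAddComm : LS.Sentence :=
  ∀' ∀' (ta (vr 0) (vr 1) =' ta (vr 1) (vr 0))
/-- associativity of multiplication -/
def xMulAssoc : LS.Sentence :=
  ∀' ∀' ∀' (tm (tm (vr 0) (vr 1)) (vr 2) =' tm (vr 0) (tm (vr 1) (vr 2)))
/-- commutativity of multiplication -/
def xMulComm : LS.Sentence :=
  ∀' ∀' (tm (vr 0) (vr 1) =' tm (vr 1) (vr 0))
/-- distributivity -/
def xDistrib : LS.Sentence :=
  ∀' ∀' ∀' (tm (vr 0) (ta (vr 1) (vr 2)) =' ta (tm (vr 0) (vr 1)) (tm (vr 0) (vr 2)))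
/-- `x + 0 = x` -/
def xAddZero : LS.Sentence :=
  ∀' (ta (vr 0) tz =' (vr 0))
/-- `x · 0 = 0` -/
def xMulZero : LS.Sentence :=
  ∀' (tm (vr 0) tz =' tz)
/-- `x · S 0 = x` -/
def xMulOne : LS.Sentence :=
  ∀' (tm (vr 0) (ts tz) =' (vr 0))
/-- `<` is transitive -/
def xLtTrans : LS.Sentence :=
  ∀' ∀' ∀' (fl (vr 0) (vr 1) ⟹ fl (vr 1) (vr 2) ⟹ fl (vr 0) (vr 2))
/-- `<` is irreflexive -/
def xLtIrrefl : LS.Sentence :=
  ∀' (∼(fl (vr 0) (vr 0)))
/-- `<` is total -/
def xLtTotal : LS.Sentence :=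
  ∀' ∀' (fl (vr 0) (vr 1) ⊔ (((vr 0) =' (vr 1)) ⊔ fl (vr 1) (vr 0)))
/-- `x < y → x + z < y + z` -/
def xAddLt : LS.Sentence :=
  ∀' ∀' ∀' (fl (vr 0) (vr 1) ⟹ fl (ta (vr 0) (vr 2)) (ta (vr 1) (vr 2)))
/-- `0 < z → x < y → x · z < y · z` -/
def xMulLt : LS.Sentence :=
  ∀' ∀' ∀' (fl tz (vr 2) ⟹ fl (vr 0) (vr 1) ⟹ fl (tm (vr 0) (vr 2)) (tm (vr 1) (vr 2)))
/-- `x < y → ∃ z, x + z = y` -/
def xDiff : LS.Sentence :=
  ∀' ∀' (fl (vr 0) (vr 1) ⟹ ∃' (ta (vr 0) (vr 2) =' (vr 1)))
/-- `0 < S 0` -/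
def xZeroLtOne : LS.Sentence :=
  fl tz (ts tz)
/-- `0 < x → S 0 < x ∨ S 0 = x` -/
def xDiscrete : LS.Sentence :=
  ∀' (fl tz (vr 0) ⟹ (fl (ts tz) (vr 0) ⊔ (ts tz =' (vr 0))))
/-- `0 < x ∨ 0 = x` -/
def xNonneg : LS.Sentence :=
  ∀' (fl tz (vr 0) ⊔ (tz =' (vr 0)))
/-- `S x = x + S 0` -/
def xSuccAdd : LS.Sentence :=
  ∀' (ts (vr 0) =' ta (vr 0) (ts tz))

/-- The axioms of discretely ordered semirings (`PA⁻`), in the language `{0, S, +, ·, <}`, with
`S x = x + S 0` (`S 0` is the number one). -/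
def PAmS : LS.Theory :=
  {xAddAssoc, xAddComm, xMulAssoc, xMulComm, xDistrib, xAddZero, xMulZero, xMulOne,
    xLtTrans, xLtIrrefl, xLtTotal, xAddLt, xMulLt, xDiff, xZeroLtOne, xDiscrete,
    xNonneg, xSuccAdd}

/-- Induction for the formula `φ(y, x)` with parameters `y : Fin n` and induction variable `x`
(the only bound variable in scope):
`∀ y, (∀ x, x = 0 → φ(y, x)) ∧ (∀ x, φ(y, x) → ∀ z, z = S x → φ(y, z)) → ∀ x, φ(y, x)`. -/
noncomputable def indS {n : ℕ} (φ : LS.BoundedFormula (Empty ⊕ Fin n) 1) : LS.Sentence :=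
  Formula.iAlls (Fin n)
    (((∀' (((vr 0) =' tz) ⟹ φ)) ⊓ (∀' (φ ⟹ ∀' (((vr 1) =' ts (vr 0)) ⟹ φ.liftAt 1 0)))) ⟹ ∀' φ)

/-- Peano arithmetic in the language `{0, S, +, ·, <}`: `PA⁻` and induction for all formulas (with
parameters). -/
def PAS : LS.Theory :=
  PAmS ∪ {σ | ∃ (n : ℕ) (φ : LS.BoundedFormula (Empty ⊕ Fin n) 1), σ = indS φ}

/-- The standard model of arithmetic. -/
@[reducible] def stdS : LS.Structure ℕ where
  funMap := fun {n} f => match n, f with
    | _, SF.zero => fun _ => 0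
    | _, SF.succ => fun v => v 0 + 1
    | _, SF.add => fun v => v 0 + v 1
    | _, SF.mul => fun v => v 0 * v 1
  RelMap := fun {n} r => match n, r with
    | _, SR.lt => fun v => v 0 < v 1

/-! ### Goedel numbers -/

/-- the code of the application of a function symbol to terms with given codes -/
def fc : {l : ℕ} → SF l → (Fin l → ℕ) → ℕ
  | _, SF.zero, _ => Nat.pair 1 0
  | _, SF.succ, v => Nat.pair 2 (v 0)
  | _, SF.add, v => Nat.pair 3 (Nat.pair (v 0) (v 1))
  | _, SF.mul, v => Nat.pair 4 (Nat.pair (v 0) (v 1))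

/-- the Goedel number of a term -/
def gt {n : ℕ} : LS.Term (Empty ⊕ Fin n) → ℕ
  | Term.var (Sum.inl e) => e.elim
  | Term.var (Sum.inr i) => Nat.pair 0 i
  | Term.func f v => fc f (fun i => gt (v i))

/-- the code of the application of a relation symbol to terms with given codes -/
def rlc : {l : ℕ} → SR l → (Fin l → ℕ) → ℕ
  | _, SR.lt, v => Nat.pair 7 (Nat.pair (v 0) (v 1))

/-- the Goedel number of a formula -/
def gf : {n : ℕ} → LS.BoundedFormula Empty n → ℕ
  | _, BoundedFormula.falsum => Nat.pair 5 0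
  | _, BoundedFormula.equal s t => Nat.pair 6 (Nat.pair (gt s) (gt t))
  | _, BoundedFormula.rel r v => rlc r (fun i => gt (v i))
  | _, BoundedFormula.imp φ ψ => Nat.pair 8 (Nat.pair (gf φ) (gf ψ))
  | _, BoundedFormula.all φ => Nat.pair 9 (gf φ)

/-- The prenex classes: `Lev true n φ` says that `φ` is a prenex formula of the class `Σ_n`, and
`Lev false n φ` that it is a prenex formula of the class `Π_n`: the classes of level `0` are the
quantifier-free formulas, `Σ_{n+1}` is the closure of `Π_n` under existential quantification, and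
`Π_{n+1}` is the closure of `Σ_n` under universal quantification. -/
inductive Lev : Bool → ℕ → {k : ℕ} → LS.BoundedFormula Empty k → Prop
  | qf {b : Bool} {k : ℕ} {φ : LS.BoundedFormula Empty k} (h : φ.IsQF) : Lev b 0 φ
  | up {b : Bool} {n k : ℕ} {φ : LS.BoundedFormula Empty k} (h : Lev (!b) n φ) : Lev b (n + 1) φ
  | ex {n k : ℕ} {φ : LS.BoundedFormula Empty (k + 1)} (h : Lev true (n + 1) φ) :
      Lev true (n + 1) φ.ex
  | all {n k : ℕ} {φ : LS.BoundedFormula Empty (k + 1)} (h : Lev false (n + 1) φ) :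
      Lev false (n + 1) φ.all

/-- `T_n = T ∩ Σ_n`: the set of the Goedel numbers of the (prenex) `Σ_n` sentences belonging to
`T`. -/
def Tn (T : LS.Theory) (n : ℕ) : Set ℕ := {z | ∃ σ : LS.Sentence, gf σ = z ∧ Lev true n σ ∧ σ ∈ T}

/-- The atomic diagram of a structure with universe `ℕ`: the set of the Goedel numbers of the atomic
formulas which are true when the variable `v_i` is the name of the element `i`. -/
def diagS (A : LS.Structure ℕ) : Set ℕ :=
  {z | ∃ (k : ℕ) (φ : LS.BoundedFormula Empty k), φ.IsAtomic ∧ gf φ = z ∧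
    @BoundedFormula.Realize LS ℕ A Empty k φ default (fun i : Fin k => (i : ℕ))}

/-- the Turing degree of a set -/
noncomputable def dg (X : Set ℕ) : TuringDegree :=
  toAntisymmetrization TuringReducible (Pool.Agent.Helper578.JD.Defs.chi X)

/-- `d` is an upper bound of the set `D` of degrees -/
def Ub (D : Set TuringDegree) (d : TuringDegree) : Prop := ∀ x ∈ D, x ≤ d

/-- `d` is a minimal upper bound of the set `D` of degrees -/
def Mub (D : Set TuringDegree) (d : TuringDegree) : Prop := Ub D d ∧ ¬ ∃ c, Ub D c ∧ c < d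

end Pool.Agent.Run7.h57.MUB.CP
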