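import Pool.Agent.Run7.h57.MUB.CP.Defs

/-!
Evaluation of quantifier-free formulas by recursion on their Goedel numbers.
-/

set_option autoImplicit false
set_option linter.unusedSectionVars false
set_option linter.unusedVariables false

open FirstOrder FirstOrder.Language

namespace Pool.Agent.Run7.h57.MUB.CP

/-! ### numbers -/

theorem lt_pair_right {t : ℕ} (ht : 0 < t) (r : ℕ) : r < Nat.pair t r := by
  unfold Nat.pair
  split_ifs with h
  · have h1 : r ≤ r * r := Nat.le_mul_self r
    omega
  · have h1 : 0 < t * t := Nat.mul_pos ht ht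
    omega

theorem lt_pair_rl {t : ℕ} (ht : 0 < t) (r : ℕ) : r.unpair.1 < Nat.pair t r :=
  lt_of_le_of_lt (Nat.unpair_left_le r) (lt_pair_right ht r)

theorem lt_pair_rr {t : ℕ} (ht : 0 < t) (r : ℕ) : r.unpair.2 < Nat.pair t r :=
  lt_of_le_of_lt (Nat.unpair_right_le r) (lt_pair_right ht r)

/-! ### evaluation -/

section ev
variable {M : Type} [CommSemiring M] [LinearOrder M]

open Classical in
/-- the step of the evaluation -/
noncomputable def evs (x : ℕ → M) (t r : ℕ) (u v w : M) : M :=
  if t = 0 then x r
  else if t = 2 then u + 1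
  else if t = 3 then v + w
  else if t = 4 then v * w
  else if t = 6 then (if v = w then 1 else 0)
  else if t = 7 then (if v < w then 1 else 0)
  else if t = 8 then (if v ≠ 0 → w ≠ 0 then 1 else 0)
  else 0

/-- the value of the term with the given code, or the truth value of the quantifier-free formula
with the given code -/
noncomputable def ev (x : ℕ → M) (z : ℕ) : M :=
  evs x z.unpair.1 z.unpair.2
    (if h : z.unpair.2 < z then ev x z.unpair.2 else 0)
    (if h : z.unpair.2.unpair.1 < z then ev x z.unpair.2.unpair.1 else 0)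
    (if h : z.unpair.2.unpair.2 < z then ev x z.unpair.2.unpair.2 else 0)
termination_by z
decreasing_by all_goals exact h

/-- the guarded value -/
noncomputable def gd (x : ℕ → M) (z q : ℕ) : M := if q < z then ev x q else 0

theorem ev_eq (x : ℕ → M) (z : ℕ) : ev x z = evs x z.unpair.1 z.unpair.2
    (gd x z z.unpair.2) (gd x z z.unpair.2.unpair.1) (gd x z z.unpair.2.unpair.2) := by
  rw [ev]
  simp only [dite_eq_ite, gd]

theorem ev_pair (x : ℕ → M) {t : ℕ} (ht : 0 < t) (r : ℕ) : ev x (Nat.pair t r) =
    evs x t r (ev x r) (ev x r.unpair.1) (ev x r.unpair.2) := by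
  rw [ev_eq]
  simp only [Nat.unpair_pair, gd, lt_pair_right ht, lt_pair_rl ht, lt_pair_rr ht, if_true]

theorem ev_var (x : ℕ → M) (i : ℕ) : ev x (Nat.pair 0 i) = x i := by
  rw [ev_eq, Nat.unpair_pair]
  simp [evs]

theorem ev_zero (x : ℕ → M) (i : ℕ) : ev x (Nat.pair 1 i) = 0 := by
  rw [ev_pair x (by norm_num)]
  simp [evs]

theorem ev_succ (x : ℕ → M) (i : ℕ) : ev x (Nat.pair 2 i) = ev x i + 1 := by
  rw [ev_pair x (by norm_num)]
  simp [evs]

theorem ev_add (x : ℕ → M) (i j : ℕ) :
    ev x (Nat.pair 3 (Nat.pair i j)) = ev x i + ev x j := by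
  rw [ev_pair x (by norm_num)]
  simp [evs]

theorem ev_mul (x : ℕ → M) (i j : ℕ) :
    ev x (Nat.pair 4 (Nat.pair i j)) = ev x i * ev x j := by
  rw [ev_pair x (by norm_num)]
  simp [evs]

theorem ev_fls (x : ℕ → M) (i : ℕ) : ev x (Nat.pair 5 i) = 0 := by
  rw [ev_pair x (by norm_num)]
  simp [evs]

variable [IsStrictOrderedRing M]

theorem ev_equ (x : ℕ → M) (i j : ℕ) :
    ev x (Nat.pair 6 (Nat.pair i j)) ≠ 0 ↔ ev x i = ev x j := by
  rw [ev_pair x (by norm_num)]
  by_cases h : ev x i = ev x j <;> simp [evs, h]

theorem ev_lt (x : ℕ → M) (i j : ℕ) :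
    ev x (Nat.pair 7 (Nat.pair i j)) ≠ 0 ↔ ev x i < ev x j := by
  rw [ev_pair x (by norm_num)]
  by_cases h : ev x i < ev x j <;> simp [evs, h]

theorem ev_imp (x : ℕ → M) (i j : ℕ) :
    ev x (Nat.pair 8 (Nat.pair i j)) ≠ 0 ↔ (ev x i ≠ 0 → ev x j ≠ 0) := by
  rw [ev_pair x (by norm_num)]
  by_cases h : ev x i ≠ 0 → ev x j ≠ 0
  · simp [evs, Nat.unpair_pair]
  · simp [evs, Nat.unpair_pair, h]

end ev

/-- compatibility of the algebraic structure with the `LS`-structure -/
structure CS (M : Type) [CommSemiring M] [LinearOrder M] [LS.Structure M] : Prop where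
  zero : ∀ v, (Structure.funMap (L := LS) SF.zero v : M) = 0
  succ : ∀ v : Fin 1 → M, Structure.funMap (L := LS) SF.succ v = v 0 + 1
  add : ∀ v : Fin 2 → M, Structure.funMap (L := LS) SF.add v = v 0 + v 1
  mul : ∀ v : Fin 2 → M, Structure.funMap (L := LS) SF.mul v = v 0 * v 1
  lt : ∀ v : Fin 2 → M, Structure.RelMap (L := LS) SR.lt v ↔ v 0 < v 1

theorem gt_zero {k : ℕ} (v : Fin 0 → LS.Term (Empty ⊕ Fin k)) :
    gt (Term.func (L := LS) SF.zero v) = Nat.pair 1 0 := rfl

section real
variable {M : Type} [CommSemiring M] [LinearOrder M] [IsStrictOrderedRing M] [LS.Structure M]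

theorem gt_ev (h : CS M) (x : ℕ → M) {n : ℕ} (t : LS.Term (Empty ⊕ Fin n)) :
    t.realize (Sum.elim default (fun i : Fin n => x i)) = ev x (gt t) := by
  induction t with
  | var a =>
    rcases a with a | a
    · exact a.elim
    · exact (ev_var x a).symm
  | func f v ih =>
    cases f with
    | zero =>
      refine (h.zero _).trans ?_
      rw [gt_zero, ev_zero]
    | succ =>
      refine (h.succ _).trans ?_
      exact ((ev_succ x _).trans (by rw [ih 0])).symm
    | add =>
      refine (h.add _).trans ?_
      exact ((ev_add x _ _).trans (by rw [ih 0, ih 1])).symm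
    | mul =>
      refine (h.mul _).trans ?_
      exact ((ev_mul x _ _).trans (by rw [ih 0, ih 1])).symm

theorem gf_ev (h : CS M) (x : ℕ → M) {n : ℕ} {φ : LS.BoundedFormula Empty n} (hφ : φ.IsQF) :
    φ.Realize default (fun i : Fin n => x i) ↔ ev x (gf φ) ≠ 0 := by
  induction hφ with
  | falsum =>
    show False ↔ ev x (Nat.pair 5 0) ≠ 0
    simp [ev_fls]
  | of_isAtomic ha =>
    cases ha with
    | equal s t =>
      refine Iff.trans ?_ (ev_equ x (gt s) (gt t)).symm
      rw [← gt_ev h, ← gt_ev h]
      exact Iff.rfl
    | rel r v =>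
      cases r with
      | lt =>
        refine Iff.trans (h.lt _) ?_
        refine Iff.trans ?_ (ev_lt x (gt (v 0)) (gt (v 1))).symm
        rw [← gt_ev h, ← gt_ev h]
  | imp h1 h2 ih1 ih2 =>
    refine Iff.trans ?_ (ev_imp x _ _).symm
    rw [← ih1, ← ih2]
    exact Iff.rfl

end real

/-! ### well-formed codes -/

/-- the step of the recursion for `wf` -/
def wfs (k t r u v w : ℕ) : ℕ :=
  if t = 0 then (if r < k then 1 else 0)
  else if t = 1 then (if r = 0 then 1 else 0)
  else if t = 2 then (if u = 1 then 1 else 0)
  else if t = 3 then (if v = 1 ∧ w = 1 then 1 else 0)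
  else if t = 4 then (if v = 1 ∧ w = 1 then 1 else 0)
  else if t = 5 then (if r = 0 then 2 else 0)
  else if t = 6 then (if v = 1 ∧ w = 1 then 2 else 0)
  else if t = 7 then (if v = 1 ∧ w = 1 then 2 else 0)
  else if t = 8 then (if v = 2 ∧ w = 2 then 2 else 0)
  else 0

/-- `1` for a code of a term, and `2` for a code of a quantifier-free formula -/
def wf (k z : ℕ) : ℕ :=
  wfs k z.unpair.1 z.unpair.2
    (if h : z.unpair.2 < z then wf k z.unpair.2 else 0)
    (if h : z.unpair.2.unpair.1 < z then wf k z.unpair.2.unpair.1 else 0)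
    (if h : z.unpair.2.unpair.2 < z then wf k z.unpair.2.unpair.2 else 0)
termination_by z
decreasing_by all_goals exact h

theorem wf_eq (k z : ℕ) : wf k z = wfs k z.unpair.1 z.unpair.2
    (if z.unpair.2 < z then wf k z.unpair.2 else 0)
    (if z.unpair.2.unpair.1 < z then wf k z.unpair.2.unpair.1 else 0)
    (if z.unpair.2.unpair.2 < z then wf k z.unpair.2.unpair.2 else 0) := by
  rw [wf]
  simp only [dite_eq_ite]

theorem wf_pair (k : ℕ) {t : ℕ} (ht : 0 < t) (r : ℕ) : wf k (Nat.pair t r) =
    wfs k t r (wf k r) (wf k r.unpair.1) (wf k r.unpair.2) := by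
  rw [wf_eq]
  simp only [Nat.unpair_pair, lt_pair_right ht, lt_pair_rl ht, lt_pair_rr ht, if_true]

theorem wf_var (k i : ℕ) : wf k (Nat.pair 0 i) = if i < k then 1 else 0 := by
  rw [wf_eq, Nat.unpair_pair]
  simp [wfs]

theorem primrec_wf : Primrec₂ wf := by
  refine Primrec.nat_strong_rec (f := wf) (g := fun k l => some (wfs k l.length.unpair.1
    l.length.unpair.2 (l.getD l.length.unpair.2 0) (l.getD l.length.unpair.2.unpair.1 0)
    (l.getD l.length.unpair.2.unpair.2 0))) ?_ ?_
  · have hl : Primrec fun p : ℕ × List ℕ => p.2.length := Primrec.list_length.comp Primrec.snd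
    have h1 : Primrec fun p : ℕ × List ℕ => p.2.length.unpair.1 :=
      Primrec.fst.comp (Primrec.unpair.comp hl)
    have h2 : Primrec fun p : ℕ × List ℕ => p.2.length.unpair.2 :=
      Primrec.snd.comp (Primrec.unpair.comp hl)
    have h3 : Primrec fun p : ℕ × List ℕ => p.2.length.unpair.2.unpair.1 :=
      Primrec.fst.comp (Primrec.unpair.comp h2)
    have h4 : Primrec fun p : ℕ × List ℕ => p.2.length.unpair.2.unpair.2 :=
      Primrec.snd.comp (Primrec.unpair.comp h2)
    have hu : Primrec fun p : ℕ × List ℕ => p.2.getD p.2.length.unpair.2 0 :=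
      (Primrec.list_getD 0).comp Primrec.snd h2
    have hv : Primrec fun p : ℕ × List ℕ => p.2.getD p.2.length.unpair.2.unpair.1 0 :=
      (Primrec.list_getD 0).comp Primrec.snd h3
    have hw : Primrec fun p : ℕ × List ℕ => p.2.getD p.2.length.unpair.2.unpair.2 0 :=
      (Primrec.list_getD 0).comp Primrec.snd h4
    have e1 : ∀ c : ℕ, PrimrecPred fun p : ℕ × List ℕ => p.2.length.unpair.1 = c := fun c =>
      Primrec.eq.comp h1 (Primrec.const c)
    have e2 : ∀ c : ℕ, PrimrecPred fun p : ℕ × List ℕ =>
        p.2.getD p.2.length.unpair.2.unpair.1 0 = c ∧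
          p.2.getD p.2.length.unpair.2.unpair.2 0 = c := fun c =>
      (Primrec.eq.comp hv (Primrec.const c)).and (Primrec.eq.comp hw (Primrec.const c))
    have c0 : ∀ c : ℕ, Primrec fun _ : ℕ × List ℕ => c := fun c => Primrec.const c
    refine Primrec.option_some.comp ?_
    exact Primrec.ite (e1 0) (Primrec.ite (Primrec.nat_lt.comp h2 Primrec.fst) (c0 1) (c0 0))
      (Primrec.ite (e1 1) (Primrec.ite (Primrec.eq.comp h2 (c0 0)) (c0 1) (c0 0))
      (Primrec.ite (e1 2) (Primrec.ite (Primrec.eq.comp hu (c0 1)) (c0 1) (c0 0))
      (Primrec.ite (e1 3) (Primrec.ite (e2 1) (c0 1) (c0 0))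
      (Primrec.ite (e1 4) (Primrec.ite (e2 1) (c0 1) (c0 0))
      (Primrec.ite (e1 5) (Primrec.ite (Primrec.eq.comp h2 (c0 0)) (c0 2) (c0 0))
      (Primrec.ite (e1 6) (Primrec.ite (e2 1) (c0 2) (c0 0))
      (Primrec.ite (e1 7) (Primrec.ite (e2 1) (c0 2) (c0 0))
      (Primrec.ite (e1 8) (Primrec.ite (e2 2) (c0 2) (c0 0)) (c0 0)))))))))
  · intro k n
    have hg : ∀ q, ((List.range n).map (wf k)).getD q 0 = if q < n then wf k q else 0 := by
      intro q
      split_ifs with h
      · rw [List.getD_eq_getElem _ _ (by simpa using h)]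
        simp
      · rw [List.getD_eq_default _ _ (by simpa using h)]
    simp only [List.length_map, List.length_range, hg]
    rw [← wf_eq]

theorem wf_gt {k : ℕ} (t : LS.Term (Empty ⊕ Fin k)) : wf k (gt t) = 1 := by
  induction t with
  | var a =>
    rcases a with a | a
    · exact a.elim
    · show wf k (Nat.pair 0 a) = 1
      rw [wf_var, if_pos a.2]
  | func f v ih =>
    cases f with
    | zero =>
      show wf k (Nat.pair 1 0) = 1
      rw [wf_pair k (by norm_num)]
      simp [wfs]
    | succ =>
      show wf k (Nat.pair 2 (gt (v 0))) = 1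
      rw [wf_pair k (by norm_num)]
      simp [wfs, ih]
    | add =>
      show wf k (Nat.pair 3 (Nat.pair (gt (v 0)) (gt (v 1)))) = 1
      rw [wf_pair k (by norm_num)]
      simp [wfs, ih]
    | mul =>
      show wf k (Nat.pair 4 (Nat.pair (gt (v 0)) (gt (v 1)))) = 1
      rw [wf_pair k (by norm_num)]
      simp [wfs, ih]

theorem wf_gf {k : ℕ} {φ : LS.BoundedFormula Empty k} (h : φ.IsQF) : wf k (gf φ) = 2 := by
  induction h with
  | falsum =>
    show wf k (Nat.pair 5 0) = 2
    rw [wf_pair k (by norm_num)]
    simp [wfs]
  | of_isAtomic ha =>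
    cases ha with
    | equal s t =>
      show wf k (Nat.pair 6 (Nat.pair (gt s) (gt t))) = 2
      rw [wf_pair k (by norm_num)]
      simp [wfs, wf_gt]
    | rel r v =>
      cases r with
      | lt =>
        show wf k (Nat.pair 7 (Nat.pair (gt (v 0)) (gt (v 1)))) = 2
        rw [wf_pair k (by norm_num)]
        simp [wfs, wf_gt]
  | @imp φ₁ φ₂ h1 h2 ih1 ih2 =>
    show wf k (Nat.pair 8 (Nat.pair (gf φ₁) (gf φ₂))) = 2
    rw [wf_pair k (by norm_num)]
    simp [wfs, ih1, ih2]

theorem wf_sound (k z : ℕ) : (wf k z = 1 → ∃ t : LS.Term (Empty ⊕ Fin k), gt t = z) ∧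
    (wf k z = 2 → ∃ φ : LS.BoundedFormula Empty k, φ.IsQF ∧ gf φ = z) := by
  induction z using Nat.strong_induction_on with
  | _ z ih =>
    obtain ⟨t, r, rfl⟩ : ∃ t r, z = Nat.pair t r := ⟨_, _, (Nat.pair_unpair z).symm⟩
    rcases Nat.eq_zero_or_pos t with rfl | ht
    · rw [wf_var]
      constructor
      · intro h
        have h1 : r < k := by
          by_contra h1
          rw [if_neg h1] at h
          exact absurd h (by norm_num)
        exact ⟨Term.var (Sum.inr ⟨r, h1⟩), rfl⟩
      · intro h
        split_ifs at h
        exact absurd h (by norm_num)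
    · have hr := ih r (lt_pair_right ht r)
      have ha := ih _ (lt_pair_rl ht r)
      have hb := ih _ (lt_pair_rr ht r)
      rw [wf_pair k ht]
      by_cases c1 : t = 1
      · subst c1
        have e : wfs k 1 r (wf k r) (wf k r.unpair.1) (wf k r.unpair.2) =
          if r = 0 then 1 else 0 := rfl
        rw [e]
        constructor
        · intro h
          have h1 : r = 0 := by
            by_contra h1
            rw [if_neg h1] at h
            exact absurd h (by norm_num)
          subst h1
          exact ⟨Term.func (L := LS) SF.zero ![], rfl⟩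
        · intro h
          split_ifs at h
          exact absurd h (by norm_num)
      by_cases c2 : t = 2
      · subst c2
        have e : wfs k 2 r (wf k r) (wf k r.unpair.1) (wf k r.unpair.2) =
          if wf k r = 1 then 1 else 0 := rfl
        rw [e]
        constructor
        · intro h
          have h1 : wf k r = 1 := by
            by_contra h1
            rw [if_neg h1] at h
            exact absurd h (by norm_num)
          obtain ⟨s, hs⟩ := hr.1 h1
          refine ⟨Term.func (L := LS) SF.succ ![s], ?_⟩
          show Nat.pair 2 (gt s) = _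
          rw [hs]
        · intro h
          split_ifs at h
          exact absurd h (by norm_num)
      by_cases c3 : t = 3
      · subst c3
        have e : wfs k 3 r (wf k r) (wf k r.unpair.1) (wf k r.unpair.2) =
          if wf k r.unpair.1 = 1 ∧ wf k r.unpair.2 = 1 then 1 else 0 := rfl
        rw [e]
        constructor
        · intro h
          have h1 : wf k r.unpair.1 = 1 ∧ wf k r.unpair.2 = 1 := by
            by_contra h1
            rw [if_neg h1] at h
            exact absurd h (by norm_num)
          obtain ⟨s, hs⟩ := ha.1 h1.1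
          obtain ⟨s', hs'⟩ := hb.1 h1.2
          refine ⟨Term.func (L := LS) SF.add ![s, s'], ?_⟩
          show Nat.pair 3 (Nat.pair (gt s) (gt s')) = _
          rw [hs, hs', Nat.pair_unpair]
        · intro h
          split_ifs at h
          exact absurd h (by norm_num)
      by_cases c4 : t = 4
      · subst c4
        have e : wfs k 4 r (wf k r) (wf k r.unpair.1) (wf k r.unpair.2) =
          if wf k r.unpair.1 = 1 ∧ wf k r.unpair.2 = 1 then 1 else 0 := rfl
        rw [e]
        constructor
        · intro h
          have h1 : wf k r.unpair.1 = 1 ∧ wf k r.unpair.2 = 1 := by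
            by_contra h1
            rw [if_neg h1] at h
            exact absurd h (by norm_num)
          obtain ⟨s, hs⟩ := ha.1 h1.1
          obtain ⟨s', hs'⟩ := hb.1 h1.2
          refine ⟨Term.func (L := LS) SF.mul ![s, s'], ?_⟩
          show Nat.pair 4 (Nat.pair (gt s) (gt s')) = _
          rw [hs, hs', Nat.pair_unpair]
        · intro h
          split_ifs at h
          exact absurd h (by norm_num)
      by_cases c5 : t = 5
      · subst c5
        have e : wfs k 5 r (wf k r) (wf k r.unpair.1) (wf k r.unpair.2) =
          if r = 0 then 2 else 0 := rfl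
        rw [e]
        constructor
        · intro h
          split_ifs at h
          exact absurd h (by norm_num)
        · intro h
          have h1 : r = 0 := by
            by_contra h1
            rw [if_neg h1] at h
            exact absurd h (by norm_num)
          subst h1
          exact ⟨⊥, BoundedFormula.IsQF.falsum, rfl⟩
      by_cases c6 : t = 6
      · subst c6
        have e : wfs k 6 r (wf k r) (wf k r.unpair.1) (wf k r.unpair.2) =
          if wf k r.unpair.1 = 1 ∧ wf k r.unpair.2 = 1 then 2 else 0 := rfl
        rw [e]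
        constructor
        · intro h
          split_ifs at h
          exact absurd h (by norm_num)
        · intro h
          have h1 : wf k r.unpair.1 = 1 ∧ wf k r.unpair.2 = 1 := by
            by_contra h1
            rw [if_neg h1] at h
            exact absurd h (by norm_num)
          obtain ⟨s, hs⟩ := ha.1 h1.1
          obtain ⟨s', hs'⟩ := hb.1 h1.2
          refine ⟨BoundedFormula.equal s s',
            BoundedFormula.IsQF.of_isAtomic (BoundedFormula.IsAtomic.equal _ _), ?_⟩
          show Nat.pair 6 (Nat.pair (gt s) (gt s')) = _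
          rw [hs, hs', Nat.pair_unpair]
      by_cases c7 : t = 7
      · subst c7
        have e : wfs k 7 r (wf k r) (wf k r.unpair.1) (wf k r.unpair.2) =
          if wf k r.unpair.1 = 1 ∧ wf k r.unpair.2 = 1 then 2 else 0 := rfl
        rw [e]
        constructor
        · intro h
          split_ifs at h
          exact absurd h (by norm_num)
        · intro h
          have h1 : wf k r.unpair.1 = 1 ∧ wf k r.unpair.2 = 1 := by
            by_contra h1
            rw [if_neg h1] at h
            exact absurd h (by norm_num)
          obtain ⟨s, hs⟩ := ha.1 h1.1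
          obtain ⟨s', hs'⟩ := hb.1 h1.2
          refine ⟨BoundedFormula.rel (L := LS) SR.lt ![s, s'],
            BoundedFormula.IsQF.of_isAtomic (BoundedFormula.IsAtomic.rel _ _), ?_⟩
          show Nat.pair 7 (Nat.pair (gt s) (gt s')) = _
          rw [hs, hs', Nat.pair_unpair]
      by_cases c8 : t = 8
      · subst c8
        have e : wfs k 8 r (wf k r) (wf k r.unpair.1) (wf k r.unpair.2) =
          if wf k r.unpair.1 = 2 ∧ wf k r.unpair.2 = 2 then 2 else 0 := rfl
        rw [e]
        constructor
        · intro h
          split_ifs at h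
          exact absurd h (by norm_num)
        · intro h
          have h1 : wf k r.unpair.1 = 2 ∧ wf k r.unpair.2 = 2 := by
            by_contra h1
            rw [if_neg h1] at h
            exact absurd h (by norm_num)
          obtain ⟨s, hs, hs1⟩ := ha.2 h1.1
          obtain ⟨s', hs', hs1'⟩ := hb.2 h1.2
          refine ⟨s.imp s', hs.imp hs', ?_⟩
          show Nat.pair 8 (Nat.pair (gf s) (gf s')) = _
          rw [hs1, hs1', Nat.pair_unpair]
      have e : wfs k t r (wf k r) (wf k r.unpair.1) (wf k r.unpair.2) = 0 := by
        have c0 : t ≠ 0 := by omega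
        simp only [wfs, c0, c1, c2, c3, c4, c5, c6, c7, c8, if_false]
      rw [e]
      exact ⟨fun h => absurd h (by norm_num), fun h => absurd h (by norm_num)⟩

/-! ### injectivity -/

/-- the tag of a function symbol -/
def ft : {l : ℕ} → SF l → ℕ
  | _, SF.zero => 1
  | _, SF.succ => 2
  | _, SF.add => 3
  | _, SF.mul => 4

/-- the tag of a term -/
def tgt {n : ℕ} : LS.Term (Empty ⊕ Fin n) → ℕ
  | Term.var _ => 0
  | Term.func f _ => ft f

/-- the tag of a formula -/
def tgf : {n : ℕ} → LS.BoundedFormula Empty n → ℕ
  | _, BoundedFormula.falsum => 5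
  | _, BoundedFormula.equal _ _ => 6
  | _, BoundedFormula.rel _ _ => 7
  | _, BoundedFormula.imp _ _ => 8
  | _, BoundedFormula.all _ => 9

theorem unp_gt {n : ℕ} (t : LS.Term (Empty ⊕ Fin n)) : (gt t).unpair.1 = tgt t := by
  cases t with
  | var a =>
    rcases a with a | a
    · exact a.elim
    · simp [gt, tgt]
  | func f v => cases f <;> simp [gt, tgt, fc, ft]

theorem unp_gf {n : ℕ} (φ : LS.BoundedFormula Empty n) : (gf φ).unpair.1 = tgf φ := by
  cases φ with
  | rel r v => cases r; simp [gf, tgf, rlc]
  | _ => simp [gf, tgf]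

theorem tag_t {n : ℕ} {s t : LS.Term (Empty ⊕ Fin n)} (h : gt s = gt t) : tgt s = tgt t := by
  rw [← unp_gt, ← unp_gt, h]

theorem tag_f {n : ℕ} {s t : LS.BoundedFormula Empty n} (h : gf s = gf t) : tgf s = tgf t := by
  rw [← unp_gf, ← unp_gf, h]

theorem gt_inj {k : ℕ} (s t : LS.Term (Empty ⊕ Fin k)) (h : gt s = gt t) : s = t := by
  induction s generalizing t with
  | var a =>
    rcases a with a | a
    · exact a.elim
    cases t with
    | var b =>
      rcases b with b | b
      · exact b.elim
      have h1 : Nat.pair 0 (a : ℕ) = Nat.pair 0 (b : ℕ) := h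
      rw [Nat.pair_eq_pair] at h1
      rw [Fin.ext h1.2]
    | func g w =>
      cases g <;> exact absurd (tag_t h) (by simp [tgt, ft])
  | func f v ih =>
    cases t with
    | var b =>
      rcases b with b | b
      · exact b.elim
      cases f <;> exact absurd (tag_t h) (by simp [tgt, ft])
    | func g w =>
      cases f with
      | zero =>
        cases g with
        | zero => rw [Subsingleton.elim v w]
        | succ => exact absurd (tag_t h) (by simp [tgt, ft])
        | add => exact absurd (tag_t h) (by simp [tgt, ft])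
        | mul => exact absurd (tag_t h) (by simp [tgt, ft])
      | succ =>
        cases g with
        | zero => exact absurd (tag_t h) (by simp [tgt, ft])
        | succ =>
          have h0 := ih 0 (w 0) (Nat.pair_eq_pair.1 h).2
          have e : v = w := by
            funext i
            fin_cases i
            exact h0
          rw [e]
        | add => exact absurd (tag_t h) (by simp [tgt, ft])
        | mul => exact absurd (tag_t h) (by simp [tgt, ft])
      | add =>
        cases g with
        | zero => exact absurd (tag_t h) (by simp [tgt, ft])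
        | succ => exact absurd (tag_t h) (by simp [tgt, ft])
        | add =>
          have h1 := Nat.pair_eq_pair.1 (Nat.pair_eq_pair.1 h).2
          have h0 := ih 0 (w 0) h1.1
          have h2 := ih 1 (w 1) h1.2
          have e : v = w := by
            funext i
            fin_cases i
            · exact h0
            · exact h2
          rw [e]
        | mul => exact absurd (tag_t h) (by simp [tgt, ft])
      | mul =>
        cases g with
        | zero => exact absurd (tag_t h) (by simp [tgt, ft])
        | succ => exact absurd (tag_t h) (by simp [tgt, ft])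
        | add => exact absurd (tag_t h) (by simp [tgt, ft])
        | mul =>
          have h1 := Nat.pair_eq_pair.1 (Nat.pair_eq_pair.1 h).2
          have h0 := ih 0 (w 0) h1.1
          have h2 := ih 1 (w 1) h1.2
          have e : v = w := by
            funext i
            fin_cases i
            · exact h0
            · exact h2
          rw [e]

theorem gf_inj {k : ℕ} (φ ψ : LS.BoundedFormula Empty k) (h : gf φ = gf ψ) : φ = ψ := by
  induction φ with
  | falsum =>
    cases ψ with
    | falsum => rfl
    | equal s t => exact absurd (tag_f h) (by simp [tgf])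
    | rel r v => cases r; exact absurd (tag_f h) (by simp [tgf])
    | imp a b => exact absurd (tag_f h) (by simp [tgf])
    | all a => exact absurd (tag_f h) (by simp [tgf])
  | equal s t =>
    cases ψ with
    | falsum => exact absurd (tag_f h) (by simp [tgf])
    | equal s' t' =>
      have h1 := Nat.pair_eq_pair.1 (Nat.pair_eq_pair.1 h).2
      rw [gt_inj _ _ h1.1, gt_inj _ _ h1.2]
    | rel r v => cases r; exact absurd (tag_f h) (by simp [tgf])
    | imp a b => exact absurd (tag_f h) (by simp [tgf])
    | all a => exact absurd (tag_f h) (by simp [tgf])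
  | rel r v =>
    cases r
    cases ψ with
    | falsum => exact absurd (tag_f h) (by simp [tgf])
    | equal s t => exact absurd (tag_f h) (by simp [tgf])
    | rel r' w =>
      cases r'
      have h1 := Nat.pair_eq_pair.1 (Nat.pair_eq_pair.1 h).2
      have h0 := gt_inj _ _ h1.1
      have h2 := gt_inj _ _ h1.2
      have e : v = w := by
        funext i
        fin_cases i
        · exact h0
        · exact h2
      rw [e]
    | imp a b => exact absurd (tag_f h) (by simp [tgf])
    | all a => exact absurd (tag_f h) (by simp [tgf])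
  | imp a b iha ihb =>
    cases ψ with
    | falsum => exact absurd (tag_f h) (by simp [tgf])
    | equal s t => exact absurd (tag_f h) (by simp [tgf])
    | rel r v => cases r; exact absurd (tag_f h) (by simp [tgf])
    | imp a' b' =>
      have h1 := Nat.pair_eq_pair.1 (Nat.pair_eq_pair.1 h).2
      rw [iha _ h1.1, ihb _ h1.2]
    | all a => exact absurd (tag_f h) (by simp [tgf])
  | all a ih =>
    cases ψ with
    | falsum => exact absurd (tag_f h) (by simp [tgf])
    | equal s t => exact absurd (tag_f h) (by simp [tgf])
    | rel r v => cases r; exact absurd (tag_f h) (by simp [tgf])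
    | imp a' b' => exact absurd (tag_f h) (by simp [tgf])
    | all b => rw [ih _ (Nat.pair_eq_pair.1 h).2]

end Pool.Agent.Run7.h57.MUB.CP
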