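import Pool.Agent.Run7.h57.MUB.CP.Ev
import Pool.Agent.Run7.h57.MUB.UD
import Pool.Agent.H623R3.JC.P_NPA

/-!
A model of PA in the language `{0, S, +, ·, <}` as a model of PA in the language `{0, 1, +, ·, <}`.
-/

set_option autoImplicit false
set_option linter.unusedSectionVars false
set_option linter.unusedVariables false

open FirstOrder FirstOrder.Language Pool.Agent.Helper227.EN

namespace Pool.Agent.Run7.h57.MUB.CP

open Pool.Agent.H623R3.JC

/-- the structure for the language `{0, 1, +, ·, <}` -/
@[reducible] def laS (M : Type) [LS.Structure M] : LA.Structure M where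
  funMap := fun {n} f => match n, f with
    | _, AF.zero => fun v => Structure.funMap (L := LS) SF.zero v
    | _, AF.one => fun v => Structure.funMap (L := LS) SF.succ ![Structure.funMap (L := LS) SF.zero v]
    | _, AF.add => fun v => Structure.funMap (L := LS) SF.add v
    | _, AF.mul => fun v => Structure.funMap (L := LS) SF.mul v
  RelMap := fun {n} r => match n, r with
    | _, AR.lt => fun v => Structure.RelMap (L := LS) SR.lt v

section realiz
variable {M : Type} [LS.Structure M]

theorem rz_z {α : Type} (v : α → M) :
    (tz : LS.Term α).realize v = Structure.funMap (L := LS) SF.zero ![] := by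
  have h : (default : Fin 0 → M) = ![] := Subsingleton.elim _ _
  rw [← h]
  exact Term.realize_constants (L := LS) (c := SF.zero)

theorem rz_s {α : Type} (v : α → M) (s : LS.Term α) :
    (ts s).realize v = Structure.funMap (L := LS) SF.succ ![s.realize v] :=
  Term.realize_functions_apply₁ (L := LS) (f := SF.succ)

theorem rz_a {α : Type} (v : α → M) (s t : LS.Term α) :
    (ta s t).realize v = Structure.funMap (L := LS) SF.add ![s.realize v, t.realize v] :=
  Term.realize_functions_apply₂ (L := LS) (f := SF.add)

theorem rz_m {α : Type} (v : α → M) (s t : LS.Term α) :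
    (tm s t).realize v = Structure.funMap (L := LS) SF.mul ![s.realize v, t.realize v] :=
  Term.realize_functions_apply₂ (L := LS) (f := SF.mul)

theorem rz_l {α : Type} {n : ℕ} (v : α → M) (xs : Fin n → M) (s t : LS.Term (α ⊕ Fin n)) :
    (fl s t).Realize v xs ↔ Structure.RelMap (L := LS) SR.lt
      ![s.realize (Sum.elim v xs), t.realize (Sum.elim v xs)] :=
  BoundedFormula.realize_rel₂ (L := LS) (R := SR.lt)

theorem minus_of (h : M ⊨ PAmS) : (@Theory.Model LA M (laS M) PAminus) ∧
    ∀ x : M, (Structure.funMap (L := LS) SF.succ ![x] : M) = Structure.funMap (L := LS) SF.add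
      ![x, Structure.funMap (L := LS) SF.succ ![Structure.funMap (L := LS) SF.zero ![] ] ] := by
  simp only [PAmS, xAddAssoc, xAddComm, xMulAssoc, xMulComm, xDistrib, xAddZero, xMulZero, xMulOne, xLtTrans, xLtIrrefl, xLtTotal, xAddLt, xMulLt, xDiff, xZeroLtOne, xDiscrete, xNonneg, xSuccAdd, Theory.model_iff, Set.mem_insert_iff, Set.mem_singleton_iff,
    forall_eq_or_imp, forall_eq, Sentence.Realize, Formula.Realize, BoundedFormula.realize_all,
    BoundedFormula.realize_bdEqual, BoundedFormula.realize_imp, BoundedFormula.realize_not,
    BoundedFormula.realize_sup, BoundedFormula.realize_ex, rz_z, rz_s, rz_a, rz_m, rz_l,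
    Term.realize_var, Sum.elim_inr] at h
  obtain ⟨h1, h2, h3, h4, h5, h6, h7, h8, h9, h10, h11, h12, h13, h14, h15, h16, h17, h18⟩ := h
  refine ⟨?_, fun x => h18 x⟩
  let i : LA.Structure M := laS M
  change M ⊨ PAminus
  simp only [PAminus, axAddAssoc, axAddComm, axMulAssoc, axMulComm, axDistrib, axAddZero,
    axMulZero, axMulOne, axLtTrans, axLtIrrefl, axLtTotal, axAddLt, axMulLt, axDiff, axZeroLtOne,
    axDiscrete, axNonneg, Theory.model_iff, Set.mem_insert_iff, Set.mem_singleton_iff,
    forall_eq_or_imp, forall_eq, Sentence.Realize, Formula.Realize, BoundedFormula.realize_all,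
    BoundedFormula.realize_bdEqual, BoundedFormula.realize_imp, BoundedFormula.realize_not,
    BoundedFormula.realize_sup, BoundedFormula.realize_ex, ea_t0, ea_t1, ea_tadd, ea_tmul, ea_flt,
    Term.realize_var, Sum.elim_inr]
  exact ⟨h1, h2, h3, h4, h5, h6, h7, h8, h9, h10, h11, h12, h13, h14, h15, h16, h17⟩

theorem realize_indS {n : ℕ} (φ : LS.BoundedFormula (Empty ⊕ Fin n) 1) :
    M ⊨ indS φ ↔ ∀ y : Fin n → M, φ.Realize (Sum.elim default y)
        (fun _ => Structure.funMap (L := LS) SF.zero ![]) →
      (∀ x : M, φ.Realize (Sum.elim default y) (fun _ => x) →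
        φ.Realize (Sum.elim default y) (fun _ => Structure.funMap (L := LS) SF.succ ![x])) →
      ∀ x : M, φ.Realize (Sum.elim default y) (fun _ => x) := by
  have h1 : ∀ x : M, (Fin.snoc (default : Fin 0 → M) x : Fin 1 → M) = fun _ => x := by
    intro x; funext i; fin_cases i; rfl
  unfold indS
  rw [Sentence.Realize, Formula.realize_iAlls]
  refine forall_congr' fun y => ?_
  simp only [Formula.Realize, BoundedFormula.realize_imp, BoundedFormula.realize_inf,
    BoundedFormula.realize_all, BoundedFormula.realize_bdEqual, Term.realize_var, Sum.elim_inr,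
    and_imp]
  refine imp_congr ?_ (imp_congr ?_ ?_)
  · constructor
    · intro h
      have := h (Structure.funMap (L := LS) SF.zero ![])
      rw [h1] at this
      exact this (rz_z _).symm
    · intro h x hx
      rw [h1]
      rw [rz_z] at hx
      have : x = Structure.funMap (L := LS) SF.zero ![] := hx
      rw [this]
      exact h
  · refine forall_congr' fun x => ?_
    refine imp_congr (by rw [h1]) ?_
    have hl : ∀ w : M, (φ.liftAt 1 0).Realize (fun a => (Sum.elim default y : Empty ⊕ Fin n → M) a)
        (Fin.snoc (Fin.snoc (default : Fin 0 → M) x) w : Fin 2 → M) ↔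
        φ.Realize (Sum.elim default y) (fun _ => w) := by
      intro w
      rw [BoundedFormula.realize_liftAt (by norm_num)]
      refine iff_of_eq (congrArg _ ?_)
      funext i
      fin_cases i
      rfl
    constructor
    · intro h
      exact (hl _).1 (h _ (by simp only [rz_s, Term.realize_var, Sum.elim_inr]; rfl))
    · intro h w hw
      refine (hl w).2 ?_
      simp only [rz_s, Term.realize_var, Sum.elim_inr] at hw
      have : w = Structure.funMap (L := LS) SF.succ ![x] := hw
      rw [this]
      exact h
  · refine forall_congr' fun x => ?_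
    rw [h1]

end realiz

/-- the symbols of `LA` are definable in `LS` -/
theorem trn_ls (M : Type) [LS.Structure M] : @Trn LA LS M M (laS M) (laS M) _ _ := by
  let i : LA.Structure M := laS M
  refine ⟨fun n f => ?_, fun n r => ?_⟩
  · cases f with
    | zero =>
      refine ⟨Term.equal (Term.var (Sum.inl ())) tz, fun v => ?_, fun v => ?_⟩ <;>
      · rw [Formula.realize_equal, rz_z, Term.realize_var]
        have e : v ∘ Sum.inr = ![] := Subsingleton.elim _ _
        show _ ↔ v (Sum.inl ()) = Structure.funMap (L := LA) AF.zero (v ∘ Sum.inr)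
        rw [e]
        exact Iff.rfl
    | one =>
      refine ⟨Term.equal (Term.var (Sum.inl ())) (ts tz), fun v => ?_, fun v => ?_⟩ <;>
      · rw [Formula.realize_equal, rz_s, rz_z, Term.realize_var]
        have e : v ∘ Sum.inr = ![] := Subsingleton.elim _ _
        show _ ↔ v (Sum.inl ()) = Structure.funMap (L := LA) AF.one (v ∘ Sum.inr)
        rw [e]
        exact Iff.rfl
    | add =>
      refine ⟨Term.equal (Term.var (Sum.inl ())) (ta (Term.var (Sum.inr 0))
        (Term.var (Sum.inr 1))), fun v => ?_, fun v => ?_⟩ <;>
      · rw [Formula.realize_equal, rz_a]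
        simp only [Term.realize_var]
        have e : v ∘ Sum.inr = ![v (Sum.inr 0), v (Sum.inr 1)] := by
          funext i
          fin_cases i <;> rfl
        show _ ↔ v (Sum.inl ()) = Structure.funMap (L := LA) AF.add (v ∘ Sum.inr)
        rw [e]
        exact Iff.rfl
    | mul =>
      refine ⟨Term.equal (Term.var (Sum.inl ())) (tm (Term.var (Sum.inr 0))
        (Term.var (Sum.inr 1))), fun v => ?_, fun v => ?_⟩ <;>
      · rw [Formula.realize_equal, rz_m]
        simp only [Term.realize_var]
        have e : v ∘ Sum.inr = ![v (Sum.inr 0), v (Sum.inr 1)] := by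
          funext i
          fin_cases i <;> rfl
        show _ ↔ v (Sum.inl ()) = Structure.funMap (L := LA) AF.mul (v ∘ Sum.inr)
        rw [e]
        exact Iff.rfl
  · cases r with
    | lt =>
      refine ⟨fl (Term.var (Sum.inl 0)) (Term.var (Sum.inl 1)), fun v => ?_, fun v => ?_⟩ <;>
      · rw [Formula.Realize, rz_l]
        simp only [Term.realize_var, Sum.elim_inl]
        have e : v = ![v 0, v 1] := by
          funext i
          fin_cases i <;> rfl
        show _ ↔ Structure.RelMap (L := LA) AR.lt v
        rw [e]
        exact Iff.rfl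

/-- a model of PA in the language `{0, S, +, ·, <}` is a model of PA -/
theorem pa_of_pas (M : Type) [LS.Structure M] (h : M ⊨ PAS) : @Theory.Model LA M (laS M) PA := by
  have hm : M ⊨ PAmS := Theory.Model.mono h Set.subset_union_left
  obtain ⟨hmm, hs⟩ := minus_of hm
  let i : LA.Structure M := laS M
  change M ⊨ PA
  rw [Theory.model_iff]
  intro σ hσ
  rcases hσ with hσ | ⟨n, φ, rfl⟩
  · exact (@Theory.model_iff LA M i _).1 hmm σ hσ
  · rw [realize_indAx φ _ _ rfl rfl]
    intro y h0 hst x
    obtain ⟨ψ, hψ, -⟩ := (trn_ls M).bdd φ
    let χ : LS.BoundedFormula (Empty ⊕ Fin n) 1 :=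
      BoundedFormula.relabel (id : (Empty ⊕ Fin n) ⊕ Fin 1 → (Empty ⊕ Fin n) ⊕ Fin 1) ψ
    have h2 : M ⊨ indS χ := (Theory.model_iff _).1 h (indS χ) (Or.inr ⟨n, χ, rfl⟩)
    rw [realize_indS] at h2
    have h3 : ∀ u : M, χ.Realize (Sum.elim default y) (fun _ => u) ↔
        φ.Realize (Sum.elim default y) (fun _ => u) := by
      intro u
      refine (BoundedFormula.realize_relabel (m := 1) (n := 0)).trans ?_
      have h4 := hψ (Sum.elim (Sum.elim default y) (fun _ => u))
      refine Iff.trans ?_ h4
      refine iff_of_eq (congrArg₂ (fun a b => BoundedFormula.Realize ψ a b) ?_ ?_)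
      · funext j
        rcases j with j | j
        · rfl
        · rfl
      · exact Subsingleton.elim _ _
    have h5 := h2 y ((h3 _).2 h0) (fun u hu => (h3 _).2 (by
      rw [hs u]
      exact hst u ((h3 u).1 hu))) x
    exact (h3 x).1 h5

/-- the algebraic operations of a nonstandard model of PA -/
theorem npa_of_pas (M : Type) [LS.Structure M] (h : M ⊨ PAS)
    (hns : ¬ Nonempty (@FirstOrder.Language.Equiv LS M ℕ _ stdS)) :
    ∃ (_ : CommSemiring M) (_ : LinearOrder M) (_ : IsStrictOrderedRing M)
      (_ : CanonicallyOrderedAdd M), @NPA M _ _ (laS M) ∧ CS M := by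
  have hm : M ⊨ PAmS := Theory.Model.mono h Set.subset_union_left
  obtain ⟨hmm, hs⟩ := minus_of hm
  have hpa := pa_of_pas M h
  let i : LA.Structure M := laS M
  have hns' : ¬ Nonempty (@FirstOrder.Language.Equiv LA M ℕ _ stdStr) := by
    rintro ⟨e⟩
    apply hns
    let j : LA.Structure ℕ := stdStr
    let j' : LS.Structure ℕ := stdS
    have e0 : e (Structure.funMap (L := LS) SF.zero ![]) = 0 := by
      have h1 := e.map_fun' (AF.zero : LA.Functions 0) (![] : Fin 0 → M)
      exact h1
    have ea : ∀ x y : M, e (Structure.funMap (L := LS) SF.add ![x, y]) = e x + e y := by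
      intro x y
      exact e.map_fun' (AF.add : LA.Functions 2) (![x, y] : Fin 2 → M)
    have em : ∀ x y : M, e (Structure.funMap (L := LS) SF.mul ![x, y]) = e x * e y := by
      intro x y
      exact e.map_fun' (AF.mul : LA.Functions 2) (![x, y] : Fin 2 → M)
    have e1 : e (Structure.funMap (L := LS) SF.succ ![Structure.funMap (L := LS) SF.zero ![] ]) =
        1 := by
      have h1 := e.map_fun' (AF.one : LA.Functions 0) (![] : Fin 0 → M)
      exact h1
    have es : ∀ x : M, e (Structure.funMap (L := LS) SF.succ ![x]) = e x + 1 := by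
      intro x
      rw [hs x, ea, e1]
    have el : ∀ x y : M, e x < e y ↔ Structure.RelMap (L := LS) SR.lt ![x, y] := by
      intro x y
      exact e.map_rel' (AR.lt : LA.Relations 2) (![x, y] : Fin 2 → M)
    refine ⟨{ toEquiv := e.toEquiv, map_fun' := ?_, map_rel' := ?_ }⟩
    · intro n f x
      cases f with
      | zero =>
        rw [Subsingleton.elim x ![] ]
        exact e0
      | succ =>
        have hx : x = ![x 0] := by
          funext i
          fin_cases i
          rfl
        rw [hx]
        exact es (x 0)
      | add =>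
        have hx : x = ![x 0, x 1] := by
          funext i
          fin_cases i <;> rfl
        rw [hx]
        exact ea (x 0) (x 1)
      | mul =>
        have hx : x = ![x 0, x 1] := by
          funext i
          fin_cases i <;> rfl
        rw [hx]
        exact em (x 0) (x 1)
    · intro n r x
      cases r with
      | lt =>
        have hx : x = ![x 0, x 1] := by
          funext i
          fin_cases i <;> rfl
        rw [hx]
        exact el (x 0) (x 1)
  obtain ⟨i1, i2, i3, i4, hN, -⟩ := prf_npa M hpa hns'
  refine ⟨i1, i2, i3, i4, hN, ?_⟩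
  have hc := hN.compat
  have e1 : (Structure.funMap (L := LS) SF.succ ![Structure.funMap (L := LS) SF.zero ![] ] : M) =
    1 := hc.one
  exact
    { zero := fun v => by
        rw [Subsingleton.elim v ![] ]
        exact hc.zero
      succ := fun v => by
        have hx : v = ![v 0] := by
          funext i
          fin_cases i
          rfl
        rw [hx, hs, e1]
        exact hc.add _ _
      add := fun v => by
        have hx : v = ![v 0, v 1] := by
          funext i
          fin_cases i <;> rfl
        rw [hx]
        exact hc.add _ _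
      mul := fun v => by
        have hx : v = ![v 0, v 1] := by
          funext i
          fin_cases i <;> rfl
        rw [hx]
        exact hc.mul _ _
      lt := fun v => by
        have hx : v = ![v 0, v 1] := by
          funext i
          fin_cases i <;> rfl
        rw [hx]
        exact hc.lt _ _ }

end Pool.Agent.Run7.h57.MUB.CP
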