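import Pool.Agent.Run7.h57.MUB.CP.Dd
import Pool.Agent.Run7.h57.MUB.CP.ToLA
import Pool.Agent.Run7.h57.MUB.N3
import Pool.Agent.H623R3.JC.P_BT
import Pool.Agent.H623R3.JC.P_CALC1
import Pool.Agent.H623R3.JC.P_CALC2
import Pool.Agent.H623R3.JC.P_COMPR
import Pool.Agent.H623R3.JC.P_IND
import Pool.Agent.H623R3.JC.P_OVER
import Pool.Agent.H623R3.JC.P_OS

/-!
The theorem on degrees of models of completions of PA.
-/

set_option autoImplicit false
set_option linter.unusedSectionVars false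
set_option linter.unusedVariables false

open FirstOrder FirstOrder.Language Pool.Agent.Helper227.EN

namespace Pool.Agent.Run7.h57.MUB.CP

open Encodable Pool.Agent.Helper578.JD Pool.Agent.Helper578.JD.Oracle Pool.Agent.Helper578.JD.Defs
open Pool.Agent.Helper578.JD.RE Pool.Agent.H623R3.JC

/-- the (codes of the) true sentences of a fixed level are in the standard system -/
theorem tn_ssp (M : Type) [CommSemiring M] [LinearOrder M] [IsStrictOrderedRing M]
    [CanonicallyOrderedAdd M] [LA.Structure M] [LS.Structure M] (h : NPA M) (hS : CS M) (n : ℕ) :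
    {z | ∃ σ : LS.Sentence, gf σ = z ∧ Lev true n σ ∧ M ⊨ σ} ∈ SSp M := by
  have c1 : Calc1 M := prf_calc1 M h
  have c2 : Calc2 M := prf_calc2 M h (prf_bt prf_ind) c1
  have hD := dd_V hS h.compat c1 c2 n true
  have h3 := prf_compr M h c1 c2 (prf_os (prf_over prf_ind)) _ hD (fun _ => 0) (fun _ => 0)
  have e : {u : ℕ | V (M := M) true n (Function.update (fun _ => 0) 0 u 1)
      (bs ((fun _ => 0 : ℕ → M) 0) ((fun _ => 0 : ℕ → M) 1))
      (Function.update (fun _ => 0) 0 u 0)} =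
      {z | ∃ σ : LS.Sentence, gf σ = z ∧ Lev true n σ ∧ M ⊨ σ} := by
    ext u
    simp only [Set.mem_ofPred_eq]
    have e1 : (Function.update (fun _ => 0) 0 u 1 : ℕ) = 0 := by
      rw [Function.update_of_ne (by decide)]
    have e2 : (Function.update (fun _ => 0) 0 u 0 : ℕ) = u := by
      rw [Function.update_self]
    rw [e1, e2]
    unfold V
    refine exists_congr fun φ => ?_
    have e3 : Tv true φ (bs ((fun _ => 0 : ℕ → M) 0) ((fun _ => 0 : ℕ → M) 1)) ↔ M ⊨ φ := by
      unfold Tv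
      simp only [iff_true]
      refine iff_of_eq (congrArg₂ (fun a b => BoundedFormula.Realize φ a b) rfl ?_)
      exact Subsingleton.elim _ _
    rw [e3]
    tauto
  rw [← e]
  exact h3

/-- the atomic diagram of a structure numbered by `g` -/
def DG {M : Type} [LS.Structure M] (g : ℕ → M) : Set ℕ :=
  {z | ∃ (k : ℕ) (φ : LS.BoundedFormula Empty k), φ.IsAtomic ∧ gf φ = z ∧
    φ.Realize default (fun i : Fin k => g i)}

theorem mem_DG {M : Type} [CommSemiring M] [LinearOrder M] [IsStrictOrderedRing M]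
    [LS.Structure M] (hS : CS M) (g : ℕ → M) {k : ℕ} {φ : LS.BoundedFormula Empty k}
    (h : φ.IsAtomic) : gf φ ∈ DG g ↔ φ.Realize default (fun i : Fin k => g i) := by
  constructor
  · rintro ⟨k', ψ, h1, h2, h3⟩
    rw [gf_ev hS g h1.isQF, h2, ← gf_ev hS g h.isQF] at h3
    exact h3
  · intro h1
    exact ⟨k, φ, h, rfl, h1⟩

/-- equations -/
theorem eq_mem_DG {M : Type} [CommSemiring M] [LinearOrder M] [IsStrictOrderedRing M]
    [LS.Structure M] (hS : CS M) (g : ℕ → M) {k : ℕ} (s t : LS.Term (Empty ⊕ Fin k)) :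
    Nat.pair 6 (Nat.pair (gt s) (gt t)) ∈ DG g ↔ ev g (gt s) = ev g (gt t) := by
  have h1 := mem_DG hS g (φ := BoundedFormula.equal s t) (BoundedFormula.IsAtomic.equal s t)
  refine h1.trans ?_
  rw [← gt_ev hS g s, ← gt_ev hS g t]
  exact Iff.rfl

theorem lt_mem_DG {M : Type} [CommSemiring M] [LinearOrder M] [IsStrictOrderedRing M]
    [LS.Structure M] (hS : CS M) (g : ℕ → M) {k : ℕ} (s t : LS.Term (Empty ⊕ Fin k)) :
    Nat.pair 7 (Nat.pair (gt s) (gt t)) ∈ DG g ↔ ev g (gt s) < ev g (gt t) := by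
  have h1 := mem_DG hS g (φ := BoundedFormula.rel (L := LS) SR.lt ![s, t])
    (BoundedFormula.IsAtomic.rel (L := LS) SR.lt ![s, t])
  refine h1.trans ?_
  rw [← gt_ev hS g s, ← gt_ev hS g t]
  exact (hS.lt _)

/-- the variable `i` as a term with enough variables -/
def vt {k : ℕ} (i : ℕ) (h : i < k) : LS.Term (Empty ⊕ Fin k) := Term.var (Sum.inr ⟨i, h⟩)

theorem gt_vt {k : ℕ} (i : ℕ) (h : i < k) : gt (vt i h) = Nat.pair 0 i := rfl

theorem dg_of_DG {M : Type} [CommSemiring M] [LinearOrder M] [IsStrictOrderedRing M]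
    [LA.Structure M] [LS.Structure M] (hc : Compat M) (hS : CS M) (g : ℕ → M) (p : ℕ) :
    Dg g p = true ↔
      (p.unpair.1 = 0 ∧ Nat.pair 6 (Nat.pair (Nat.pair 3 (Nat.pair
        (Nat.pair 0 p.unpair.2.unpair.1) (Nat.pair 0 p.unpair.2.unpair.2.unpair.1)))
        (Nat.pair 0 p.unpair.2.unpair.2.unpair.2)) ∈ DG g) ∨
      (p.unpair.1 = 1 ∧ Nat.pair 6 (Nat.pair (Nat.pair 4 (Nat.pair
        (Nat.pair 0 p.unpair.2.unpair.1) (Nat.pair 0 p.unpair.2.unpair.2.unpair.1)))
        (Nat.pair 0 p.unpair.2.unpair.2.unpair.2)) ∈ DG g) ∨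
      (p.unpair.1 = 2 ∧ Nat.pair 7 (Nat.pair (Nat.pair 0 p.unpair.2.unpair.1)
        (Nat.pair 0 p.unpair.2.unpair.2.unpair.1)) ∈ DG g) ∨
      (p.unpair.1 = 3 ∧ Nat.pair 6 (Nat.pair (Nat.pair 1 0)
        (Nat.pair 0 p.unpair.2.unpair.1)) ∈ DG g) ∨
      (p.unpair.1 = 4 ∧ Nat.pair 6 (Nat.pair (Nat.pair 2 (Nat.pair 1 0))
        (Nat.pair 0 p.unpair.2.unpair.1)) ∈ DG g) := by
  have hadd : ∀ i j l : ℕ, Nat.pair 6 (Nat.pair (Nat.pair 3 (Nat.pair
      (Nat.pair 0 i) (Nat.pair 0 j))) (Nat.pair 0 l)) ∈ DG g ↔ g i + g j = g l := by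
    intro i j l
    let k := i + j + l + 1
    have h1 := eq_mem_DG hS g (k := k) (ta (vt i (by omega)) (vt j (by omega))) (vt l (by omega))
    refine h1.trans ?_
    have e1 : ev g (gt (ta (vt i (by omega) : LS.Term (Empty ⊕ Fin k)) (vt j (by omega)))) =
      g i + g j := by
      refine (ev_add g _ _).trans ?_
      exact congrArg₂ (· + ·) (ev_var g i) (ev_var g j)
    rw [e1, gt_vt, ev_var]
  have hmul : ∀ i j l : ℕ, Nat.pair 6 (Nat.pair (Nat.pair 4 (Nat.pair
      (Nat.pair 0 i) (Nat.pair 0 j))) (Nat.pair 0 l)) ∈ DG g ↔ g i * g j = g l := by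
    intro i j l
    let k := i + j + l + 1
    have h1 := eq_mem_DG hS g (k := k) (tm (vt i (by omega)) (vt j (by omega))) (vt l (by omega))
    refine h1.trans ?_
    have e1 : ev g (gt (tm (vt i (by omega) : LS.Term (Empty ⊕ Fin k)) (vt j (by omega)))) =
      g i * g j := by
      refine (ev_mul g _ _).trans ?_
      exact congrArg₂ (· * ·) (ev_var g i) (ev_var g j)
    rw [e1, gt_vt, ev_var]
  have hlt : ∀ i j : ℕ, Nat.pair 7 (Nat.pair (Nat.pair 0 i) (Nat.pair 0 j)) ∈ DG g ↔
      g i < g j := by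
    intro i j
    let k := i + j + 1
    have h1 := lt_mem_DG hS g (k := k) (vt i (by omega)) (vt j (by omega))
    refine h1.trans ?_
    rw [gt_vt, gt_vt, ev_var, ev_var]
  have hzero : ∀ i : ℕ, Nat.pair 6 (Nat.pair (Nat.pair 1 0) (Nat.pair 0 i)) ∈ DG g ↔
      0 = g i := by
    intro i
    let k := i + 1
    have h1 := eq_mem_DG hS g (k := k) (Term.func (L := LS) SF.zero ![]) (vt i (by omega))
    rw [gt_zero] at h1
    refine h1.trans ?_
    rw [gt_vt, ev_var, ev_zero]
  have hone : ∀ i : ℕ, Nat.pair 6 (Nat.pair (Nat.pair 2 (Nat.pair 1 0)) (Nat.pair 0 i)) ∈ DG g ↔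
      1 = g i := by
    intro i
    let k := i + 1
    have h1 := eq_mem_DG hS g (k := k) (ts (Term.func (L := LS) SF.zero ![])) (vt i (by omega))
    have e0 : gt (ts (Term.func (L := LS) SF.zero ![]) : LS.Term (Empty ⊕ Fin k)) =
      Nat.pair 2 (Nat.pair 1 0) := rfl
    rw [e0] at h1
    refine h1.trans ?_
    rw [gt_vt, ev_var, ev_succ, ev_zero, zero_add]
  rw [hadd, hmul, hlt, hzero, hone]
  unfold Dg
  simp only
  rcases Nat.lt_or_ge p.unpair.1 5 with h5 | h5
  · interval_cases h : p.unpair.1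
    · simp [hc.add]
    · simp [hc.mul]
    · simp [hc.lt]
    · simp [hc.zero]
    · simp [hc.one]
  · have h0 : ¬ p.unpair.1 = 0 := by omega
    have h1 : ¬ p.unpair.1 = 1 := by omega
    have h2 : ¬ p.unpair.1 = 2 := by omega
    have h3 : ¬ p.unpair.1 = 3 := by omega
    have h4 : ¬ p.unpair.1 = 4 := by omega
    simp [h0, h1, h2, h3, h4]

theorem decIn_dg {M : Type} [CommSemiring M] [LinearOrder M] [IsStrictOrderedRing M]
    [LA.Structure M] [LS.Structure M] (hc : Compat M) (hS : CS M) (g : ℕ → M) :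
    DecIn (DG g) fun p => Dg g p = true := by
  have hm : DecIn (DG g) (· ∈ DG g) := DecIn.mem Computable.id
  refine DecIn.of_eq ?_ fun p => (dg_of_DG hc hS g p).symm
  refine DecIn.or (DecIn.and (DecIn.eq (by fun_prop) (by fun_prop))
    (DecIn.comp (P := (· ∈ DG g)) hm (by fun_prop))) ?_
  refine DecIn.or (DecIn.and (DecIn.eq (by fun_prop) (by fun_prop))
    (DecIn.comp (P := (· ∈ DG g)) hm (by fun_prop))) ?_
  refine DecIn.or (DecIn.and (DecIn.eq (by fun_prop) (by fun_prop))
    (DecIn.comp (P := (· ∈ DG g)) hm (by fun_prop))) ?_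
  refine DecIn.or (DecIn.and (DecIn.eq (by fun_prop) (by fun_prop))
    (DecIn.comp (P := (· ∈ DG g)) hm (by fun_prop))) ?_
  exact DecIn.and (DecIn.eq (by fun_prop) (by fun_prop))
    (DecIn.comp (P := (· ∈ DG g)) hm (by fun_prop))

/-- For a nonstandard model `M` of PA numbered by `g`, there is a set below the atomic diagram which
does not compute the atomic diagram, and which computes all sets of true sentences of fixed
levels. -/
theorem exists_below (M : Type) [LS.Structure M] (h : M ⊨ PAS)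
    (hns : ¬ Nonempty (@FirstOrder.Language.Equiv LS M ℕ _ stdS)) (g : ℕ → M)
    (hg : Function.Surjective g) :
    ∃ B : Set ℕ, Red B (DG g) ∧ ¬ Red (DG g) B ∧
      ∀ n, Red {z | ∃ σ : LS.Sentence, gf σ = z ∧ Lev true n σ ∧ M ⊨ σ} B := by
  obtain ⟨i1, i2, i3, i4, hN, hS⟩ := npa_of_pas M h hns
  let i : LA.Structure M := laS M
  obtain ⟨B, D, h1, h2, h3, h4⟩ := mainDeg M hN g hg (DG g) (decIn_dg hN.compat hS g)
  refine ⟨B, h1, fun h5 => h3 (Red.trans h2 h5), fun n => h4 _ (tn_ssp M hN hS n)⟩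

/-- **Theorem.** For every completion `T` of PA and every nonstandard model `A` of `T` with universe
`ℕ`, the degree of `A` is not a minimal upper bound of the degrees of the sets `T_n`. -/
theorem main (T : LS.Theory) (hT : T.IsMaximal) (hPA : PAS ⊆ T) (A : LS.Structure ℕ)
    (hA : @Theory.Model LS ℕ A T) (hns : ¬ Nonempty (@FirstOrder.Language.Equiv LS ℕ ℕ A stdS)) :
    ¬ Mub {d | ∃ n, d = dg (Tn T n)} (dg (diagS A)) := by
  rintro ⟨-, hmin⟩
  apply hmin
  obtain ⟨B, h1, h2, h3⟩ := @exists_below ℕ A (Theory.Model.mono hA hPA) hns id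
    Function.surjective_id
  have hdiag : @DG ℕ A id = diagS A := by
    ext z
    refine exists_congr fun k => exists_congr fun φ => and_congr_right fun _ =>
      and_congr_right fun _ => ?_
    refine iff_of_eq (congrArg₂ (fun a b => @BoundedFormula.Realize LS ℕ A Empty k φ a b) ?_ rfl)
    exact Subsingleton.elim _ _
  rw [hdiag] at h1 h2
  have hTn : ∀ n, Tn T n = {z | ∃ σ : LS.Sentence, gf σ = z ∧ Lev true n σ ∧
      @Sentence.Realize LS ℕ A σ} := by
    intro n
    ext z
    refine exists_congr fun σ => and_congr_right fun _ => and_congr_right fun _ => ?_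
    constructor
    · intro hσ
      exact (@Theory.model_iff LS ℕ A T).1 hA σ hσ
    · intro hσ
      rcases hT.mem_or_not_mem σ with h4 | h4
      · exact h4
      · exfalso
        have h5 := (@Theory.model_iff LS ℕ A T).1 hA _ h4
        exact h5 hσ
  refine ⟨dg B, ?_, ?_⟩
  · rintro x ⟨n, rfl⟩
    rw [hTn]
    exact h3 n
  · refine lt_of_le_not_ge ?_ ?_
    · exact h1
    · intro h5
      exact h2 h5

end Pool.Agent.Run7.h57.MUB.CP
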