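import Pool.Agent.Run7.h57.MUB.CP.ToLA

/-!
Sanity check: the standard model is a model of `PAS`, so completions of `PAS` exist.
-/

set_option autoImplicit false

open FirstOrder FirstOrder.Language

namespace Pool.Agent.Run7.h57.MUB.CP

theorem std_pams : @Theory.Model LS ℕ stdS PAmS := by
  let i : LS.Structure ℕ := stdS
  change ℕ ⊨ PAmS
  simp only [PAmS, xAddAssoc, xAddComm, xMulAssoc, xMulComm, xDistrib, xAddZero, xMulZero, xMulOne,
    xLtTrans, xLtIrrefl, xLtTotal, xAddLt, xMulLt, xDiff, xZeroLtOne, xDiscrete, xNonneg, xSuccAdd,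
    Theory.model_iff, Set.mem_insert_iff, Set.mem_singleton_iff,
    forall_eq_or_imp, forall_eq, Sentence.Realize, Formula.Realize, BoundedFormula.realize_all,
    BoundedFormula.realize_bdEqual, BoundedFormula.realize_imp, BoundedFormula.realize_not,
    BoundedFormula.realize_sup, BoundedFormula.realize_ex, rz_z, rz_s, rz_a, rz_m, rz_l,
    Term.realize_var, Sum.elim_inr]
  refine ⟨fun x y z => ?_, fun x y => ?_, fun x y z => ?_, fun x y => ?_, fun x y z => ?_,
    fun x => ?_, fun x => ?_, fun x => ?_, fun x y z h1 h2 => ?_, fun x h => ?_, fun x y => ?_,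
    fun x y z h => ?_, fun x y z h h' => ?_, fun x y h => ?_, ?_, fun x h => ?_, fun x => ?_,
    fun x => ?_⟩
  · exact Nat.add_assoc x y z
  · exact Nat.add_comm x y
  · exact Nat.mul_assoc x y z
  · exact Nat.mul_comm x y
  · exact Nat.mul_add x y z
  · exact Nat.add_zero x
  · exact Nat.mul_zero x
  · exact Nat.mul_one x
  · exact Nat.lt_trans (n := x) (m := y) (k := z) h1 h2
  · exact Nat.lt_irrefl x h
  · exact Nat.lt_trichotomy x y
  · exact Nat.add_lt_add_right (n := x) (m := y) h z
  · exact Nat.mul_lt_mul_of_pos_right (n := x) (m := y) h' h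
  · have h' : x < y := h
    exact ⟨y - x, Nat.add_sub_of_le h'.le⟩
  · exact Nat.zero_lt_one
  · have h' : 0 < x := h
    exact Nat.lt_or_eq_of_le (n := 1) (m := x) h'
  · have : 0 < x ∨ 0 = x := by omega
    exact this
  · exact rfl

/-- the standard model is a model of `PAS` -/
theorem std_pas : @Theory.Model LS ℕ stdS PAS := by
  let i : LS.Structure ℕ := stdS
  change ℕ ⊨ PAS
  rw [Theory.model_iff]
  intro σ hσ
  rcases hσ with hσ | ⟨n, φ, rfl⟩
  · exact (Theory.model_iff _).1 std_pams σ hσ
  · rw [realize_indS]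
    intro y h0 hs x
    induction x with
    | zero => exact h0
    | succ x ih => exact hs x ih

/-- completions of PA exist -/
theorem exists_completion : ∃ T : LS.Theory, T.IsMaximal ∧ PAS ⊆ T := by
  let i : LS.Structure ℕ := stdS
  exact ⟨LS.completeTheory ℕ, completeTheory.isMaximal LS ℕ,
    fun σ hσ => (Theory.model_iff _).1 std_pas σ hσ⟩

end Pool.Agent.Run7.h57.MUB.CP
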